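import Pool.Agent.Helper26.DMU.Defs

/-! Block DMU-DED.  `C` a Dedekind domain with fraction field `K`, `A` a finite subset of `K`.
The set `S` of all `P` with `v_P(a) > 1` for some `a ∈ A` is finite; the valuations in `S` detect
the units of `Subring.closure A` modulo the units of `C`. -/

set_option autoImplicit false

namespace Pool.Agent.Helper26.DMU

open IsDedekindDomain HeightOneSpectrum

theorem ded_units_le_one {C K : Type*} [CommRing C] [IsDedekindDomain C] [Field K] [Algebra C K]
    [IsFractionRing C K] (A : Finset K) (P : HeightOneSpectrum C)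
    (hP : ∀ a ∈ A, P.valuation K a ≤ 1) (x : K) (hx : x ∈ Subring.closure (A : Set K)) :
    P.valuation K x ≤ 1 := by
  have h : Subring.closure (A : Set K) ≤ (P.valuation K).integer := by
    rw [Subring.closure_le]
    intro a ha
    exact hP a (by simpa using ha)
  exact h hx

theorem ded_units {C K : Type*} [CommRing C] [IsDedekindDomain C] [Field K] [Algebra C K]
    [IsFractionRing C K] (A : Finset K) :
    ∃ (s : ℕ) (v : Kˣ →* Multiplicative (Fin s → ℤ)), ∀ u ∈ unitsIn A, v u = 1 →
      ∃ w : Cˣ, algebraMap C K w = u := by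
  classical
  have hfin : (⋃ a ∈ A, {P : HeightOneSpectrum C | 1 < P.valuation K a}).Finite := by
    refine Set.Finite.biUnion A.finite_toSet fun a _ => ?_
    exact HeightOneSpectrum.Support.finite C a
  set S := hfin.toFinset with hS
  have hSmem : ∀ P : HeightOneSpectrum C, P ∉ S → ∀ a ∈ A, P.valuation K a ≤ 1 := by
    intro P hP a ha
    by_contra hcon
    apply hP
    rw [hS, Set.Finite.mem_toFinset]
    simp only [Set.mem_iUnion, Set.mem_ofPred_eq]
    exact ⟨a, ha, not_le.1 hcon⟩
  let e : Fin S.card ≃ S := S.equivFin.symm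
  let v : Kˣ →* Multiplicative (Fin S.card → ℤ) :=
    { toFun := fun u => Multiplicative.ofAdd fun i =>
        Multiplicative.toAdd ((e i : HeightOneSpectrum C).valuationOfNeZero u)
      map_one' := by
        simp only [map_one]
        rfl
      map_mul' := by
        intro x y
        simp only [map_mul]
        rfl }
  refine ⟨S.card, v, ?_⟩
  intro u hu hv
  rw [mem_unitsIn] at hu
  have h1 : ∀ P : HeightOneSpectrum C, P.valuation K (u : K) = 1 := by
    intro P
    by_cases hP : P ∈ S
    · have h2 := congrFun (congrArg Multiplicative.toAdd hv) (e.symm ⟨P, hP⟩)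
      have h3 : Multiplicative.toAdd (P.valuationOfNeZero u) = 0 := by
        have : ((e (e.symm ⟨P, hP⟩) : S) : HeightOneSpectrum C) = P := by simp
        simpa [v, this] using h2
      have h4 : P.valuationOfNeZero u = 1 := by
        rw [← toAdd_eq_zero]; exact h3
      rw [← valuationOfNeZero_eq, h4]
      rfl
    · have h2 := ded_units_le_one A P (hSmem P hP) _ hu.1
      have h3 := ded_units_le_one A P (hSmem P hP) _ hu.2
      refine le_antisymm h2 ?_
      rw [Units.val_inv_eq_inv_val, map_inv₀] at h3
      have h4 : P.valuation K (u : K) ≠ 0 := by simp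
      have h5 := mul_le_mul_right h3 (P.valuation K (u : K))
      rw [mul_inv_cancel₀ h4, mul_one] at h5
      exact h5
  obtain ⟨w, hw⟩ := mem_integers_of_valuation_le_one K (u : K) (fun P => (h1 P).le)
  obtain ⟨w', hw'⟩ := mem_integers_of_valuation_le_one (R := C) K ((u⁻¹ : Kˣ) : K) (fun P => by
    rw [Units.val_inv_eq_inv_val, map_inv₀, h1 P, inv_one])
  have hww : w * w' = 1 := by
    apply IsFractionRing.injective C K
    rw [map_mul, hw, hw', map_one, Units.mul_inv]
  exact ⟨⟨w, w', hww, by rw [mul_comm]; exact hww⟩, hw⟩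

end Pool.Agent.Helper26.DMU
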