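import Mathlib

/-!
# Units of finitely generated subrings of fields: definitions
-/

set_option autoImplicit false

namespace Pool.Agent.Helper26.DMU

/-- The units of the subring generated by a finite set. -/
def unitsIn {K : Type*} [Field K] (A : Finset K) : Subgroup Kˣ where
  carrier := {u | (u : K) ∈ Subring.closure (A : Set K) ∧
    ((u⁻¹ : Kˣ) : K) ∈ Subring.closure (A : Set K)}
  one_mem' := ⟨by rw [Units.val_one]; exact one_mem _, by rw [inv_one, Units.val_one]; exact one_mem _⟩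
  mul_mem' := by
    rintro a b ⟨ha, ha'⟩ ⟨hb, hb'⟩
    refine ⟨by rw [Units.val_mul]; exact mul_mem ha hb, ?_⟩
    rw [mul_inv, Units.val_mul]
    exact mul_mem ha' hb'
  inv_mem' := by
    rintro a ⟨ha, ha'⟩
    exact ⟨ha', by rw [inv_inv]; exact ha⟩

theorem mem_unitsIn {K : Type*} [Field K] {A : Finset K} {u : Kˣ} :
    u ∈ unitsIn A ↔ (u : K) ∈ Subring.closure (A : Set K) ∧
      ((u⁻¹ : Kˣ) : K) ∈ Subring.closure (A : Set K) := Iff.rfl

theorem map_closure_eq {K K' : Type*} [Field K] [Field K'] [DecidableEq K] (f : K' →+* K)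
    (A : Finset K') :
    (Subring.closure (A : Set K')).map f = Subring.closure ((A.image f : Finset K) : Set K) := by
  rw [RingHom.map_closure, Finset.coe_image]

theorem map_unitsIn {K K' : Type*} [Field K] [Field K'] [DecidableEq K] (f : K' →+* K)
    (A : Finset K') : (unitsIn A).map (Units.map (f : K' →* K)) = unitsIn (A.image f) := by
  ext u
  rw [Subgroup.mem_map, mem_unitsIn, ← map_closure_eq]
  constructor
  · rintro ⟨w, ⟨hw, hw'⟩, rfl⟩
    refine ⟨⟨w, hw, rfl⟩, ⟨((w⁻¹ : K'ˣ) : K'), hw', ?_⟩⟩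
    rw [← map_inv]
    rfl
  · rintro ⟨⟨w, hw, hwu⟩, ⟨w', hw', hwu'⟩⟩
    have h1 : w * w' = 1 := by
      apply f.injective
      rw [map_mul, map_one, hwu, hwu', Units.mul_inv]
    refine ⟨⟨w, w', h1, by rw [mul_comm]; exact h1⟩, ⟨hw, hw'⟩, ?_⟩
    exact Units.ext hwu

/-- Almost everywhere values in a group of units. -/
def GUnit {K : Type*} [Field K] (U : Ultrafilter ℕ) (G : Subgroup Kˣ) (y : ℕ → K) : Prop :=
  ∀ᶠ n in (U : Filter ℕ), ∃ g ∈ G, (g : K) = y n

/-- The unit theorem for the group `G` and the ultrafilter `U`: sequences in `G` which are pairwise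
not proportional are linearly independent. -/
def UnitIndep {K : Type*} [Field K] (U : Ultrafilter ℕ) (G : Subgroup Kˣ) : Prop :=
  ∀ (n : ℕ) (y : Fin n → ℕ → K), (∀ i, GUnit U G (y i)) →
    (∀ i i', i ≠ i' → ¬ ∃ a : K, ∀ᶠ j in (U : Filter ℕ), y i j = a * y i' j) →
    ∀ c : Fin n → K, (∀ᶠ j in (U : Filter ℕ), ∑ i, c i * y i j = 0) → c = 0

end Pool.Agent.Helper26.DMU
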