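import Mathlib

/-! Block DMU-INT (about 30 lines).  Use `iInf_valuationSubring_superset` (Mathlib/RingTheory/Valuation/LocalSubring.lean): the integral closure of `k` in `K` is the intersection of the valuation subrings
`V` containing (the image of) `k`.  For such a `V`: `t ∈ V` or `t⁻¹ ∈ V` (`ValuationSubring.mem_or_inv_mem`), so `V` contains `Algebra.adjoin k {t}` or `Algebra.adjoin k {t⁻¹}`, and `V` is integrally closed, so `x ∈ V`. -/

set_option autoImplicit false

namespace Pool.Agent.Helper26.DMU

theorem int_mem {k K : Type*} [Field k] [Field K] [Algebra k K] (V : ValuationSubring K)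
    (hV : ∀ c : k, algebraMap k K c ∈ V) (t : K) (ht : t ∈ V) (x : K)
    (h1 : IsIntegral (Algebra.adjoin k {t}) x) : x ∈ V := by
  let V' : Subalgebra k K := { V.toSubring with algebraMap_mem' := hV }
  have hle : Algebra.adjoin k {t} ≤ V' := by
    rw [Algebra.adjoin_le_iff, Set.singleton_subset_iff]
    exact ht
  let φ : Algebra.adjoin k {t} →+* V :=
    { toFun := fun a => ⟨a.1, hle a.2⟩
      map_one' := rfl
      map_mul' := fun _ _ => rfl
      map_zero' := rfl
      map_add' := fun _ _ => rfl }
  have h2 : IsIntegral V x := by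
    have := IsIntegral.map_of_comp_eq φ (RingHom.id K) (by ext a; rfl) h1
    exact this
  obtain ⟨y, hy⟩ := IsIntegrallyClosed.isIntegral_iff.mp h2
  rw [← hy]
  exact y.2

theorem int_two {k K : Type*} [Field k] [Field K] [Algebra k K] (t : K) (x : K)
    (h1 : IsIntegral (Algebra.adjoin k {t}) x) (h2 : IsIntegral (Algebra.adjoin k {t⁻¹}) x) :
    IsIntegral k x := by
  have hx : x ∈ (⨅ V : {V : ValuationSubring K //
      Set.range (algebraMap k K) ⊆ V.toSubring}, V.1.toSubring) := by
    rw [Subring.mem_iInf]
    rintro ⟨V, hV⟩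
    have hV' : ∀ c : k, algebraMap k K c ∈ V := fun c => hV ⟨c, rfl⟩
    rcases V.mem_or_inv_mem t with ht | ht
    · exact int_mem V hV' t ht x h1
    · exact int_mem V hV' t⁻¹ ht x h2
  rw [iInf_valuationSubring_superset] at hx
  have h3 : IsIntegral (Subring.closure (Set.range (algebraMap k K))) x := hx
  have h4 : Subring.closure (Set.range (algebraMap k K)) =
      (⊥ : Subalgebra k K).toSubring := by
    rw [← RingHom.coe_range, Subring.closure_eq]
    ext z
    simp [Algebra.mem_bot]
  rw [h4] at h3
  have h5 : IsIntegral (⊥ : Subalgebra k K) x := h3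
  exact isIntegral_trans x h5

end Pool.Agent.Helper26.DMU
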