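import Pool.Agent.Helper26.DMU.DED
import Pool.Agent.Helper26.DMU.INT

/-! Block DMU-FF.  Units of finitely generated subrings of function fields of one variable:
finitely many valuations detect them modulo elements algebraic over the constant field. -/

set_option autoImplicit false

namespace Pool.Agent.Helper26.DMU

open scoped IntermediateField.algebraAdjoinAdjoin

/-- `k[t]` is a principal ideal domain. -/
theorem ff_pid {k K : Type*} [Field k] [Field K] [Algebra k K] (t : K) :
    IsPrincipalIdealRing (Algebra.adjoin k {t}) := by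
  have h : ∀ p : Polynomial k, Polynomial.aeval t p ∈ Algebra.adjoin k {t} := by
    intro p
    rw [Algebra.adjoin_singleton_eq_range_aeval]
    exact ⟨p, rfl⟩
  let φ : Polynomial k →+* Algebra.adjoin k {t} :=
    (Polynomial.aeval t : Polynomial k →ₐ[k] K).toRingHom.codRestrict
      (Algebra.adjoin k {t}).toSubring h
  refine IsPrincipalIdealRing.of_surjective φ ?_
  rintro ⟨x, hx⟩
  have hx' := hx
  rw [Algebra.adjoin_singleton_eq_range_aeval] at hx'
  obtain ⟨p, hp⟩ := hx'
  exact ⟨p, Subtype.ext hp⟩

theorem ff_units_int {k K : Type*} [Field k] [CharZero k] [Field K] [Algebra k K] (t : K)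
    (ht : Transcendental k t) (hfin : FiniteDimensional (IntermediateField.adjoin k {t}) K)
    (A : Finset K) :
    ∃ (s : ℕ) (v : Kˣ →* Multiplicative (Fin s → ℤ)), ∀ u ∈ unitsIn A, v u = 1 →
      IsIntegral (Algebra.adjoin k {t}) (u : K) := by
  have hpid : IsPrincipalIdealRing (Algebra.adjoin k {t}) := ff_pid t
  have hded : IsDedekindDomain (Algebra.adjoin k {t}) := inferInstance
  have hC1 : IsDedekindDomain (integralClosure (Algebra.adjoin k {t}) K) :=
    integralClosure.isDedekindDomain (Algebra.adjoin k {t}) (IntermediateField.adjoin k {t}) K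
  have hC2 : IsFractionRing (integralClosure (Algebra.adjoin k {t}) K) K :=
    integralClosure.isFractionRing_of_finite_extension (IntermediateField.adjoin k {t}) K
  obtain ⟨s, v, hv⟩ := ded_units (C := integralClosure (Algebra.adjoin k {t}) K) A
  refine ⟨s, v, ?_⟩
  intro u hu hvu
  obtain ⟨w, hw⟩ := hv u hu hvu
  rw [← hw]
  exact (w : integralClosure (Algebra.adjoin k {t}) K).2

theorem ff_adjoin_inv {k K : Type*} [Field k] [Field K] [Algebra k K] (t : K) :
    IntermediateField.adjoin k {t⁻¹} = IntermediateField.adjoin k {t} := by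
  apply le_antisymm
  · rw [IntermediateField.adjoin_le_iff, Set.singleton_subset_iff]
    exact inv_mem (IntermediateField.mem_adjoin_simple_self k t)
  · rw [IntermediateField.adjoin_le_iff, Set.singleton_subset_iff]
    have h := inv_mem (IntermediateField.mem_adjoin_simple_self k t⁻¹)
    rwa [inv_inv] at h

theorem ff_units {k K : Type*} [Field k] [CharZero k] [Field K] [Algebra k K] (t : K)
    (ht : Transcendental k t) (hfin : FiniteDimensional (IntermediateField.adjoin k {t}) K)
    (A : Finset K) :
    ∃ (s : ℕ) (v : Kˣ →* Multiplicative (Fin s → ℤ)), ∀ u ∈ unitsIn A, v u = 1 →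
      IsAlgebraic k (u : K) := by
  have ht' : Transcendental k t⁻¹ := by
    intro h
    exact ht (IsAlgebraic.inv_iff.1 h)
  have hfin' : FiniteDimensional (IntermediateField.adjoin k {t⁻¹}) K := by
    rw [ff_adjoin_inv]
    exact hfin
  obtain ⟨s1, v1, h1⟩ := ff_units_int t ht hfin A
  obtain ⟨s2, v2, h2⟩ := ff_units_int t⁻¹ ht' hfin' A
  let v : Kˣ →* Multiplicative (Fin (s1 + s2) → ℤ) :=
    { toFun := fun u => Multiplicative.ofAdd
        (Fin.append (Multiplicative.toAdd (v1 u)) (Multiplicative.toAdd (v2 u)))
      map_one' := by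
        rw [v1.map_one, v2.map_one]
        apply congrArg Multiplicative.ofAdd
        funext i
        refine Fin.addCases (fun j => ?_) (fun j => ?_) i
        · rw [Fin.append_left]; rfl
        · rw [Fin.append_right]; rfl
      map_mul' := by
        intro x y
        rw [v1.map_mul, v2.map_mul, ← ofAdd_add]
        apply congrArg Multiplicative.ofAdd
        funext i
        rw [Pi.add_apply]
        refine Fin.addCases (fun j => ?_) (fun j => ?_) i
        · simp only [Fin.append_left]; rfl
        · simp only [Fin.append_right]; rfl }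
  refine ⟨s1 + s2, v, ?_⟩
  intro u hu hv
  have hv' : Fin.append (Multiplicative.toAdd (v1 u)) (Multiplicative.toAdd (v2 u)) = 0 :=
    congrArg Multiplicative.toAdd hv
  have e1 : v1 u = 1 := by
    rw [← toAdd_eq_zero]
    funext j
    have := congrFun hv' (Fin.castAdd s2 j)
    rw [Fin.append_left] at this
    exact this
  have e2 : v2 u = 1 := by
    rw [← toAdd_eq_zero]
    funext j
    have := congrFun hv' (Fin.natAdd s1 j)
    rw [Fin.append_right] at this
    exact this
  exact (int_two t (u : K) (h1 u hu e1) (h2 u hu e2)).isAlgebraic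

end Pool.Agent.Helper26.DMU
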