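import Mathlib

/-! Block DMU-GL (about 90 lines).  For a finite `T ⊆ ι` let `N_T = {g : ∀ i ∈ T, ∃ n > 0, f i g ^ n = 1}`, a subgroup of the finitely generated abelian group `G`; it is saturated: `g ^ n ∈ N_T`, `n > 0` implies `g ∈ N_T`.
Choose `T₀` with `finrank ℤ (Additive N_{T₀})` minimal.  For every `i`, `N_{T₀ ∪ {i}} ≤ N_{T₀}` has the same rank, so the quotient is torsion, and by saturation the two are equal.  So for `g ∈ N_{T₀}`: for all `i` some power of `f i g` is
trivial, so `f i (g ^ e) = (f i g) ^ e = 1` by `htor` for all `i`, so `g ^ e = 1` by `hsep`.  `N_{T₀}` is a finitely generated abelian torsion group, so finite (`CommGroup.finite_of_fg_torsion` or similar).  For every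
`g ∈ N_{T₀}`, `g ≠ 1`, choose `i_g` with `f i_g g ≠ 1`; `T = T₀ ∪ {i_g}`. -/

set_option autoImplicit false

namespace Pool.Agent.Helper26.DMU

theorem group_lemma {G : Type*} [CommGroup G] (hG : Group.FG G) {ι : Type*} {H : ι → Type*}
    [∀ i, CommGroup (H i)] (f : ∀ i, G →* H i) (e : ℕ) (he : 0 < e)
    (htor : ∀ i g n, 0 < n → f i g ^ n = 1 → f i g ^ e = 1) (hsep : ∀ g, g ≠ 1 → ∃ i, f i g ≠ 1) :
    ∃ T : Finset ι, ∀ g, (∀ i ∈ T, f i g = 1) → g = 1 := by
  classical
  have hfin : Module.Finite ℤ (Additive G) := by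
    have : AddGroup.FG (Additive G) := inferInstance
    exact Module.Finite.iff_addGroup_fg.2 this
  -- the subgroups killed by finitely many of the homomorphisms
  let N : Finset ι → Submodule ℤ (Additive G) := fun T =>
    { carrier := {g | ∀ i ∈ T, f i g.toMul = 1}
      add_mem' := by
        intro a b ha hb i hi
        rw [toMul_add, map_mul, ha i hi, hb i hi, mul_one]
      zero_mem' := by
        intro i _
        rw [toMul_zero, map_one]
      smul_mem' := by
        intro k a ha i hi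
        rw [toMul_zsmul, map_zpow, ha i hi, one_zpow] }
  have hN : ∀ T g, g ∈ N T ↔ ∀ i ∈ T, f i g.toMul = 1 := fun T g => Iff.rfl
  let T₀ : Finset ι := Function.argmin (fun T => Module.finrank ℤ (N T))
  have hT₀ : ∀ T, Module.finrank ℤ (N T₀) ≤ Module.finrank ℤ (N T) := fun T =>
    Function.argmin_le (fun T => Module.finrank ℤ (N T)) T
  have hpow : ∀ g ∈ N T₀, ∀ i, ∃ n : ℕ, 0 < n ∧ f i g.toMul ^ n = 1 := by
    intro g hg i
    have hle : N (insert i T₀) ≤ N T₀ := by
      intro x hx j hj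
      exact hx j (Finset.mem_insert_of_mem hj)
    have hr : Module.finrank ℤ ((N (insert i T₀)).comap (N T₀).subtype) =
        Module.finrank ℤ (N (insert i T₀)) :=
      (Submodule.comapSubtypeEquivOfLe hle).finrank_eq
    have hq := Submodule.finrank_quotient_add_finrank ((N (insert i T₀)).comap (N T₀).subtype)
    have h0 : Module.finrank ℤ (N T₀ ⧸ (N (insert i T₀)).comap (N T₀).subtype) = 0 := by
      have := hT₀ (insert i T₀)
      omega
    rw [Module.finrank_eq_zero_iff_isTorsion] at h0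
    obtain ⟨a, ha⟩ := @h0 (Submodule.Quotient.mk ⟨g, hg⟩)
    have ha0 : (a : ℤ) ≠ 0 := nonZeroDivisors.coe_ne_zero a
    have h1 : ((a : ℤ) • (⟨g, hg⟩ : N T₀)) ∈ (N (insert i T₀)).comap (N T₀).subtype := by
      rw [← Submodule.Quotient.mk_eq_zero, Submodule.Quotient.mk_smul]
      exact ha
    have h2 : f i g.toMul ^ (a : ℤ) = 1 := by
      have := h1 i (Finset.mem_insert_self i T₀)
      rw [← map_zpow]
      exact this
    refine ⟨(a : ℤ).natAbs, Int.natAbs_pos.2 ha0, ?_⟩
    rcases Int.natAbs_eq (a : ℤ) with h3 | h3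
    · rw [h3, zpow_natCast] at h2
      exact h2
    · rw [h3, zpow_neg, zpow_natCast, inv_eq_one] at h2
      exact h2
  have hpe : ∀ g ∈ N T₀, g.toMul ^ e = 1 := by
    intro g hg
    by_contra hne
    obtain ⟨i, hi⟩ := hsep _ hne
    obtain ⟨n, hn, hn1⟩ := hpow g hg i
    exact hi (by rw [map_pow]; exact htor i _ n hn hn1)
  have htors : Module.IsTorsion ℤ (N T₀) := by
    rintro ⟨g, hg⟩
    refine ⟨⟨(e : ℤ), mem_nonZeroDivisors_of_ne_zero (by exact_mod_cast he.ne')⟩, ?_⟩
    apply Subtype.ext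
    have := hpe g hg
    show (e : ℤ) • g = 0
    rw [natCast_zsmul]
    exact this
  have hF : Finite (N T₀) := Module.finite_of_fg_torsion _ htors
  have hFin : (N T₀ : Set (Additive G)).Finite := Set.toFinite _
  have hch : ∀ g : Additive G, ∃ S : Finset ι, (g.toMul ≠ 1 → ∃ i ∈ S, f i g.toMul ≠ 1) := by
    intro g
    by_cases hg : g.toMul = 1
    · exact ⟨∅, fun h => absurd hg h⟩
    · obtain ⟨i, hi⟩ := hsep _ hg
      exact ⟨{i}, fun _ => ⟨i, Finset.mem_singleton_self i, hi⟩⟩
  choose S hS using hch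
  refine ⟨T₀ ∪ hFin.toFinset.biUnion S, fun g hg => ?_⟩
  by_contra hne
  have hgN : Additive.ofMul g ∈ N T₀ := fun i hi => hg i (Finset.mem_union_left _ hi)
  obtain ⟨i, hi, hfi⟩ := hS (Additive.ofMul g) hne
  exact hfi (hg i (Finset.mem_union_right _ (Finset.mem_biUnion.2
    ⟨Additive.ofMul g, hFin.mem_toFinset.2 hgN, hi⟩)))

end Pool.Agent.Helper26.DMU
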