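import Pool.Agent.Helper26.DMC.WI
import Pool.Agent.Helper26.DMU.Defs

/-! Block DMU-GW (about 120 lines): `sunit_grade` (DMC/SU2.lean) and `window` (DMC/WI.lean) for a general group of units.  Same proofs, with `SUnit U S` replaced by `GUnit U G` and `sunit_indep` replaced by the hypothesis
`hI : UnitIndep U G`.  `window_ae_const`, `window_relation_lattice` (WI.lean) are general and can be used. -/

set_option autoImplicit false

namespace Pool.Agent.Helper26.DMU

open MvPolynomial Pool.Agent.Helper26.DMC

variable {K : Type*} [Field K]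

theorem gunit_grade (U : Ultrafilter ℕ) (G : Subgroup Kˣ) (hI : UnitIndep U G) {κ : Type*}
    (s : Finset κ) (y : κ → ℕ → K) (hy : ∀ i ∈ s, GUnit U G (y i)) (c : κ → K)
    (hsum : ∀ᶠ n in (U : Filter ℕ), ∑ i ∈ s, c i * y i n = 0)
    {τ : Type*} [DecidableEq τ] (f : κ → τ)
    (hf : ∀ i ∈ s, ∀ i' ∈ s, (∃ a : K, ∀ᶠ n in (U : Filter ℕ), y i n = a * y i' n) → f i = f i')
    (t : τ) :
    ∀ᶠ n in (U : Filter ℕ), ∑ i ∈ s.filter (fun i => f i = t), c i * y i n = 0 := by
  classical
  -- the relation of a.e. proportionality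
  let r : Setoid s :=
    { r := fun i i' => ∃ a : K, ∀ᶠ n in (U : Filter ℕ), y i n = a * y i' n
      iseqv :=
        { refl := fun i => ⟨1, Filter.Eventually.of_forall fun n => by simp⟩
          symm := by
            rintro i i' ⟨a, ha⟩
            have hne : a ≠ 0 := by
              rintro rfl
              have h := (hy i i.2).and ha
              obtain ⟨n, h1, h2⟩ := h.exists
              obtain ⟨g, -, hg⟩ := h1
              exact g.ne_zero (by rw [hg, h2, zero_mul])
            refine ⟨a⁻¹, ?_⟩
            filter_upwards [ha] with n hn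
            rw [hn, ← mul_assoc, inv_mul_cancel₀ hne, one_mul]
          trans := by
            rintro i i' i'' ⟨a, ha⟩ ⟨b, hb⟩
            refine ⟨a * b, ?_⟩
            filter_upwards [ha, hb] with n h1 h2
            rw [h1, h2, mul_assoc] } }
  let _ : Fintype (Quotient r) := Fintype.ofFinite _
  have hρ : ∀ i : s, ∃ a : K, ∀ᶠ n in (U : Filter ℕ),
      y i n = a * y (Quotient.mk r i).out n := fun i =>
    r.iseqv.symm (Quotient.mk_out (s := r) i)
  choose lam hlam using hρ
  have hlam' : ∀ᶠ n in (U : Filter ℕ), ∀ i : s, y i n = lam i * y (Quotient.mk r i).out n :=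
    Filter.eventually_all.2 hlam
  -- the class sums
  let b : Quotient r → K := fun q =>
    ∑ i ∈ Finset.univ.filter (fun i : {x // x ∈ s} => Quotient.mk r i = q), c i.1 * lam i
  have hb : ∀ᶠ n in (U : Filter ℕ), ∑ q : Quotient r, b q * y q.out n = 0 := by
    filter_upwards [hsum, hlam'] with n h1 h2
    rw [← h1, ← Finset.sum_coe_sort s, ← Finset.sum_fiberwise Finset.univ (Quotient.mk r)]
    refine Finset.sum_congr rfl fun q _ => ?_
    rw [Finset.sum_mul]
    refine Finset.sum_congr rfl fun i hi => ?_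
    have hq : Quotient.mk r i = q := (Finset.mem_filter.1 hi).2
    rw [h2 i, hq, mul_assoc]
  let e := Fintype.equivFin (Quotient r)
  have hzero : (fun j => b (e.symm j)) = 0 := by
    refine hI _ (fun j n => y (e.symm j).out n) (fun j => hy _ (e.symm j).out.2) ?_ _ ?_
    · intro j j' hjj hex
      apply hjj
      apply e.symm.injective
      have h3 : (Quotient.mk r (e.symm j).out) = Quotient.mk r (e.symm j').out :=
        Quotient.sound (s := r) hex
      rwa [Quotient.out_eq, Quotient.out_eq] at h3
    · filter_upwards [hb] with n hn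
      rw [← hn]
      exact Equiv.sum_comp e.symm (fun q => b q * y q.out n)
  have hb0 : ∀ q, b q = 0 := fun q => by
    have := congrFun hzero (e q)
    simpa using this
  filter_upwards [hlam'] with n h2
  have h4 : ∑ i ∈ s.filter (fun i => f i = t), c i * y i n =
      ∑ i ∈ Finset.univ.filter (fun i : {x // x ∈ s} => f i.1 = t), c i.1 * y i.1 n := by
    rw [Finset.sum_filter, Finset.sum_filter, ← Finset.sum_coe_sort s]
  rw [h4, ← Finset.sum_fiberwise (Finset.univ.filter fun i : {x // x ∈ s} => f i.1 = t)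
    (Quotient.mk r)]
  refine Finset.sum_eq_zero fun q _ => ?_
  by_cases hq : f q.out = t
  · have h5 : ((Finset.univ.filter fun i : s => f i = t).filter fun i => Quotient.mk r i = q) =
        Finset.univ.filter fun i : s => Quotient.mk r i = q := by
      ext i
      simp only [Finset.mem_filter, Finset.mem_univ, true_and, and_iff_right_iff_imp]
      intro hi
      rw [← hq, ← hi]
      exact hf _ i.2 _ (Quotient.mk r i).out.2 (r.iseqv.symm (Quotient.mk_out (s := r) i))
    rw [h5]
    have h6 : ∑ i ∈ Finset.univ.filter (fun i : {x // x ∈ s} => Quotient.mk r i = q),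
        c i.1 * y i.1 n = b q * y q.out n := by
      rw [Finset.sum_mul]
      refine Finset.sum_congr rfl fun i hi => ?_
      have hq' : Quotient.mk r i = q := (Finset.mem_filter.1 hi).2
      rw [h2 i, hq', mul_assoc]
    rw [h6, hb0, zero_mul]
  · refine Finset.sum_eq_zero fun i hi => ?_
    exfalso
    simp only [Finset.mem_filter, Finset.mem_univ, true_and] at hi
    apply hq
    rw [← hi.1, ← hi.2]
    exact (hf _ i.2 _ (Quotient.mk r i).out.2 (r.iseqv.symm (Quotient.mk_out (s := r) i))).symm

theorem gwindow (U : Ultrafilter ℕ) (G : Subgroup Kˣ) (hI : UnitIndep U G) {L : ℕ}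
    (u : Fin L → ℕ → K) (hu : ∀ j, GUnit U G (u j)) :
    (∃ c : Fin L → K, ∀ᶠ n in (U : Filter ℕ), ∀ j, u j n = c j) ∨
    ∃ a : Fin L → ℤ, a ≠ 0 ∧ ∀ F : MvPolynomial (Fin L) K,
      (∀ᶠ n in (U : Filter ℕ), eval (fun j => u j n) F = 0) →
        ∀ t, ∀ᶠ n in (U : Filter ℕ), eval (fun j => u j n) (gr a t F) = 0 := by
  classical
  have hu1 : ∀ᶠ n in (U : Filter ℕ), ∀ j, ∃ g ∈ G, (g : K) = u j n :=
    Filter.eventually_all.2 hu
  have hu0 : ∀ᶠ n in (U : Filter ℕ), ∀ j, u j n ≠ 0 := hu1.mono fun n h j => by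
    obtain ⟨g, -, hg⟩ := h j
    rw [← hg]
    exact g.ne_zero
  rcases window_relation_lattice U u hu0 with h | ⟨a, ha, hl⟩
  · exact Or.inl h
  right
  refine ⟨a, ha, fun F hF t => ?_⟩
  have hy : ∀ w ∈ F.support, GUnit U G (fun n => ∏ j, u j n ^ w j) := by
    intro w _
    unfold GUnit
    filter_upwards [hu1] with n hn
    choose g hg hgu using hn
    refine ⟨∏ j, g j ^ w j, Subgroup.prod_mem _ fun j _ => Subgroup.pow_mem _ (hg j) _, ?_⟩
    rw [Units.coe_prod]
    exact Finset.prod_congr rfl fun j _ => by rw [Units.val_pow_eq_pow_val, hgu]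
  have key := gunit_grade U G hI F.support (fun w n => ∏ j, u j n ^ w j) hy (fun w => F.coeff w)
    (by
      filter_upwards [hF] with n hn
      rw [← hn, eval_eq']) (wt a) (by
      rintro w - w' - ⟨c, hc⟩
      have h1 := hl (fun j => (w j : ℤ) - (w' j : ℤ)) ⟨c, by
        filter_upwards [hc, hu0] with n hn hn0
        have h2 : ∏ j, u j n ^ ((w j : ℤ) - (w' j : ℤ)) = (∏ j, u j n ^ w j) / ∏ j, u j n ^ w' j := by
          rw [← Finset.prod_div_distrib]
          exact Finset.prod_congr rfl fun j _ => by
            rw [zpow_sub₀ (hn0 j), zpow_natCast, zpow_natCast]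
        rw [h2, hn, mul_div_assoc, div_self, mul_one]
        exact Finset.prod_ne_zero_iff.2 fun j _ => pow_ne_zero _ (hn0 j)⟩
      have hw : ∀ w : Fin L →₀ ℕ, wt a w = ∑ j, (w j : ℤ) * a j := by
        intro w
        unfold wt
        rw [Finsupp.sum_fintype]
        intro i; simp
      rw [hw, hw, ← sub_eq_zero, ← Finset.sum_sub_distrib, ← h1]
      exact Finset.sum_congr rfl fun j _ => by ring) t
  filter_upwards [key] with n hn
  rw [← hn]
  unfold gr
  rw [map_sum]
  refine Finset.sum_congr rfl fun w _ => ?_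
  rw [eval_monomial, Finsupp.prod_fintype]
  intro i; simp

end Pool.Agent.Helper26.DMU
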