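import Mathlib

/-! Block DMU-RES (about 50 lines).  `exists_res`: `R = Algebra.adjoin k A` is a finitely generated `k`-algebra, `M` a maximal ideal, `κ = R ⧸ M` is finite over `k` (Zariski's lemma,
`finite_of_finite_type_of_isJacobsonRing` or similar).
`res_ne_zero`: `u ≠ 0` is algebraic over `k`, so `u * w = algebraMap c` for some `w ∈ k[u] ⊆ R` and `c ≠ 0` in `k` (or `IsAlgebraic.exists_nonzero_dvd`); so `φ u ≠ 0`. -/

set_option autoImplicit false

namespace Pool.Agent.Helper26.DMU

universe w u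

theorem exists_res {k : Type w} {K : Type u} [Field k] [Field K] [Algebra k K] (A : Finset K) :
    ∃ (κ : Type u) (_ : Field κ) (_ : Algebra k κ) (_ : Module.Finite k κ)
      (_ : Algebra.adjoin k (A : Set K) →ₐ[k] κ), True := by
  obtain ⟨M, hM⟩ := Ideal.exists_maximal (Algebra.adjoin k (A : Set K))
  have : Algebra.FiniteType k (Algebra.adjoin k (A : Set K)) :=
    (Subalgebra.fg_iff_finiteType _).1 ⟨A, rfl⟩
  let _ := Ideal.Quotient.field M
  have : Algebra.FiniteType k (Algebra.adjoin k (A : Set K) ⧸ M) :=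
    Algebra.FiniteType.of_surjective (Ideal.Quotient.mkₐ k M) (Ideal.Quotient.mkₐ_surjective k M)
  have : Module.Finite k (Algebra.adjoin k (A : Set K) ⧸ M) :=
    finite_of_finite_type_of_isJacobsonRing k _
  exact ⟨Algebra.adjoin k (A : Set K) ⧸ M, inferInstance, inferInstance, inferInstance,
    Ideal.Quotient.mkₐ k M, trivial⟩

theorem res_ne_zero {k : Type w} {K κ : Type u} [Field k] [Field K] [Algebra k K] [Field κ]
    [Algebra k κ] (R : Subalgebra k K) (φ : R →ₐ[k] κ) (x : R) (hx : IsAlgebraic k (x : K))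
    (h0 : x ≠ 0) : φ x ≠ 0 := by
  have hx' : IsAlgebraic k x := by
    obtain ⟨p, hp, hpx⟩ := hx
    refine ⟨p, hp, ?_⟩
    apply Subtype.ext
    change R.val (Polynomial.aeval x p) = 0
    rw [← Polynomial.aeval_algHom_apply]
    exact hpx
  obtain ⟨r, hr, hdvd⟩ := hx'.exists_nonzero_dvd (mem_nonZeroDivisors_of_ne_zero h0)
  obtain ⟨w, hw⟩ := hdvd
  intro h
  have h1 := congrArg φ hw
  rw [map_mul, h, zero_mul, AlgHom.commutes] at h1
  exact hr ((map_eq_zero (algebraMap k κ)).1 h1)

end Pool.Agent.Helper26.DMU
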