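import Pool.Agent.Helper26.DMU.DED

/-! Block DMU-RQB (about 80 lines).
`fg_of_injective`: a commutative group with an injective homomorphism to a finitely generated commutative group is finitely generated (subgroups of finitely generated abelian groups are finitely generated: Noetherian `ℤ`-modules).
`units_fg_numberField`: `ded_units` with `C = 𝓞 K` gives `v`; the kernel of `v` on `unitsIn A` lies in the image of `(𝓞 K)ˣ`, which is finitely generated (Mathlib: `instance : Monoid.FG (𝓞 K)ˣ`), and `Multiplicative (Fin s → ℤ)` is finitely generated.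
`units_fg_algebraic`: let `K' = IntermediateField.adjoin ℚ A`, a number field (finitely many algebraic generators); lift `A` to `K'` and use `map_unitsIn` (Defs). -/

set_option autoImplicit false

namespace Pool.Agent.Helper26.DMU

open NumberField

theorem finite_int_of_fg {H : Type*} [CommGroup H] (hH : Group.FG H) :
    Module.Finite ℤ (Additive H) := by
  rw [Module.Finite.iff_addGroup_fg]
  exact GroupFG.iff_add_fg.mp hH

theorem fg_of_injective {G H : Type*} [CommGroup G] [CommGroup H] (hH : Group.FG H) (f : G →* H)
    (hf : Function.Injective f) : Group.FG G := by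
  have hfin : Module.Finite ℤ (Additive H) := finite_int_of_fg hH
  have h1 : Module.Finite ℤ (Additive G) :=
    Module.Finite.of_injective ((MonoidHom.toAdditive f).toIntLinearMap) hf
  rw [Module.Finite.iff_addGroup_fg] at h1
  exact GroupFG.iff_add_fg.mpr h1

/-- extensions of finitely generated commutative groups -/
theorem fg_of_ker {G H : Type*} [CommGroup G] [CommGroup H] (hH : Group.FG H) (f : G →* H)
    (hk : f.ker.FG) : Group.FG G := by
  have hfin : Module.Finite ℤ (Additive H) := finite_int_of_fg hH
  set F : Additive G →ₗ[ℤ] Additive H := (MonoidHom.toAdditive f).toIntLinearMap with hF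
  have h1 : (⊤ : Submodule ℤ (Additive G)).FG := by
    refine Submodule.fg_of_fg_map_of_fg_inf_ker F (IsNoetherian.noetherian _) ?_
    rw [top_inf_eq, Submodule.fg_iff_addSubgroup_fg]
    have h2 := (Subgroup.fg_iff_add_fg f.ker).mp hk
    have h3 : (LinearMap.ker F).toAddSubgroup = f.ker.toAddSubgroup := by
      ext x
      exact Iff.rfl
    rw [h3]
    exact h2
  have h4 : Module.Finite ℤ (Additive G) := ⟨h1⟩
  rw [Module.Finite.iff_addGroup_fg] at h4
  exact GroupFG.iff_add_fg.mpr h4

theorem units_fg_numberField {K : Type*} [Field K] [NumberField K] (A : Finset K) :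
    (unitsIn A).FG := by
  obtain ⟨s, v, hv⟩ := ded_units (C := 𝓞 K) A
  rw [← Group.fg_iff_subgroup_fg]
  have hH : Group.FG (Multiplicative (Fin s → ℤ)) := by
    have : AddGroup.FG (Fin s → ℤ) := by
      rw [← Module.Finite.iff_addGroup_fg]
      infer_instance
    infer_instance
  refine fg_of_ker hH (v.comp (unitsIn A).subtype) ?_
  rw [← Group.fg_iff_subgroup_fg]
  -- the kernel embeds in the image of the units of the ring of integers
  set P : Subgroup Kˣ := (Units.map (algebraMap (𝓞 K) K : 𝓞 K →* K)).range with hP
  have hPfg : Group.FG P := by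
    have h1 : Group.FG (𝓞 K)ˣ := Group.fg_iff_monoid_fg.mpr inferInstance
    exact Group.fg_range _
  have hmem : ∀ u : (v.comp (unitsIn A).subtype).ker, ((u : unitsIn A) : Kˣ) ∈ P := by
    rintro ⟨u, hu⟩
    obtain ⟨w, hw⟩ := hv u.1 u.2 hu
    exact ⟨w, Units.ext hw⟩
  refine fg_of_injective hPfg
    { toFun := fun u => ⟨((u : unitsIn A) : Kˣ), hmem u⟩
      map_one' := rfl
      map_mul' := fun _ _ => rfl } ?_
  intro a b hab
  have h1 : ((a : unitsIn A) : Kˣ) = ((b : unitsIn A) : Kˣ) :=
    congrArg (fun z : P => (z : Kˣ)) hab
  exact Subtype.ext (Subtype.ext h1)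

theorem units_fg_algebraic {K : Type*} [Field K] [CharZero K] (hK : Algebra.IsAlgebraic ℚ K)
    (A : Finset K) : (unitsIn A).FG := by
  classical
  set K' : IntermediateField ℚ K := IntermediateField.adjoin ℚ (A : Set K) with hK'
  have hfd : FiniteDimensional ℚ K' := by
    refine IntermediateField.finiteDimensional_adjoin ?_
    intro x _
    exact (hK.isAlgebraic x).isIntegral
  have hnf : NumberField K' := { to_charZero := inferInstance, to_finiteDimensional := hfd }
  let A' : Finset K' := A.attach.image fun a =>
    ⟨a.1, IntermediateField.subset_adjoin ℚ _ (Finset.mem_coe.mpr a.2)⟩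
  have hA' : A'.image (algebraMap K' K) = A := by
    ext x
    simp only [A', Finset.mem_image, Finset.mem_attach, true_and, Subtype.exists]
    constructor
    · rintro ⟨y, hy, ⟨a, ha, hay⟩, hx⟩
      have : a = y := congrArg Subtype.val hay
      rw [← hx]
      change y ∈ A
      rwa [← this]
    · intro hx
      exact ⟨x, IntermediateField.subset_adjoin ℚ _ (Finset.mem_coe.mpr hx), ⟨x, hx, rfl⟩, rfl⟩
  have h1 := units_fg_numberField A'
  have h2 := map_unitsIn (algebraMap K' K) A'
  rw [hA'] at h2
  rw [← h2, Subgroup.fg_iff_submonoid_fg]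
  exact Submonoid.FG.map ((Subgroup.fg_iff_submonoid_fg _).mp h1)
    (Units.map (algebraMap K' K : K' →* K))

end Pool.Agent.Helper26.DMU
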