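import Pool.Agent.Helper26.DMU.FF
import Pool.Agent.Helper26.DMU.RES
import Pool.Agent.Helper26.DMU.RQB

/-! Block DMU-RQI (helper36): Roquette's theorem.  Induction on `r` for `units_fg_aux`.
`r = 0`: `K` is algebraic over `ℚ`: `units_fg_algebraic`.
`r + 1`: `k = ℚ(s 0, ..., s (r-1))`, `t = s r`.  If `t` is algebraic over `k` then `K` is algebraic
over `k` and the induction hypothesis applies.  Otherwise replace `K` by a finite extension `K'` of
`k(t)` containing `A`: `units_fg_step` (homomorphism to a product of valuations and of a residue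
field). -/

set_option autoImplicit false

namespace Pool.Agent.Helper26.DMU

universe u

/-- Transfer of finite generation along a field embedding whose image contains the generators. -/
theorem fg_of_range {K K' : Type*} [Field K] [Field K'] (f : K' →+* K) (A : Finset K)
    (hA : ∀ a ∈ A, ∃ x, f x = a) (h : ∀ A' : Finset K', (unitsIn A').FG) : (unitsIn A).FG := by
  classical
  choose! g hg using hA
  have e : (A.image g).image f = A := by
    rw [Finset.image_image]
    ext x
    simp only [Finset.mem_image, Function.comp_apply]
    constructor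
    · rintro ⟨a, ha, rfl⟩
      rw [hg a ha]
      exact ha
    · intro hx
      exact ⟨x, hx, hg x hx⟩
  rw [← e, ← map_unitsIn]
  obtain ⟨S, hS⟩ := h (A.image g)
  exact ⟨S.image (Units.map (f : K' →* K)), by
    rw [Finset.coe_image, ← MonoidHom.map_closure, hS]⟩

/-- A finite extension of `k(x)` is finite over the subfield generated by the image of `x`. -/
theorem finite_adjoin_algebraMap {k F K' : Type*} [Field k] [Field F] [Field K'] [Algebra k F]
    [Algebra k K'] [Algebra F K'] [IsScalarTower k F K'] [FiniteDimensional F K'] (x : F)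
    (hx : IntermediateField.adjoin k {x} = ⊤) :
    FiniteDimensional (IntermediateField.adjoin k {algebraMap F K' x}) K' := by
  have hmem : ∀ y : F, algebraMap F K' y ∈ IntermediateField.adjoin k {algebraMap F K' x} := by
    intro y
    have h1 : (IntermediateField.adjoin k {x}).map (IsScalarTower.toAlgHom k F K') =
        IntermediateField.adjoin k {algebraMap F K' x} := by
      rw [IntermediateField.adjoin_map, Set.image_singleton]
      rfl
    rw [← h1, hx]
    exact ⟨y, IntermediateField.mem_top, rfl⟩
  let _ : Algebra F (IntermediateField.adjoin k {algebraMap F K' x}) :=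
    ((algebraMap F K').codRestrict
      (IntermediateField.adjoin k {algebraMap F K' x}).toSubfield hmem).toAlgebra
  have _ : IsScalarTower F (IntermediateField.adjoin k {algebraMap F K' x}) K' :=
    IsScalarTower.of_algebraMap_eq (fun _ => rfl)
  exact Module.Finite.of_restrictScalars_finite F
    (IntermediateField.adjoin k {algebraMap F K' x}) K'

theorem adjoin_gen_eq_top' {k K : Type*} [Field k] [Field K] [Algebra k K] (t : K) :
    IntermediateField.adjoin k
      {(⟨t, IntermediateField.subset_adjoin k {t} rfl⟩ : IntermediateField.adjoin k {t})} = ⊤ := by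
  apply IntermediateField.lift_injective
  rw [IntermediateField.lift_adjoin_simple, IntermediateField.lift_top]

/-- The induction step: a function field in one variable over a field generated by `r` elements. -/
theorem units_fg_step {r : ℕ} (IH : ∀ (K : Type u) [Field K] [CharZero K] (s : Fin r → K),
      Algebra.IsAlgebraic (IntermediateField.adjoin ℚ (Set.range s)) K →
        ∀ A : Finset K, (unitsIn A).FG)
    {k K : Type u} [Field k] [CharZero k] [Field K] [Algebra k K] (s : Fin r → k)
    (hs : ∀ F : Subfield k, (∀ i, s i ∈ F) → ∀ x, x ∈ F) (t : K) (ht : Transcendental k t)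
    (hfin : FiniteDimensional (IntermediateField.adjoin k {t}) K) (A : Finset K) :
    (unitsIn A).FG := by
  classical
  obtain ⟨m, v, hv⟩ := ff_units t ht hfin A
  obtain ⟨κ, _, _, _, φ, -⟩ := exists_res (k := k) A
  have : CharZero κ := charZero_of_injective_algebraMap (algebraMap k κ).injective
  -- `κ` is algebraic over the field generated by the images of the `s i`
  have hκ : Algebra.IsAlgebraic
      (IntermediateField.adjoin ℚ (Set.range (fun i => algebraMap k κ (s i)))) κ := by
    set E := IntermediateField.adjoin ℚ (Set.range (fun i => algebraMap k κ (s i))) with hE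
    have hmem : ∀ x : k, algebraMap k κ x ∈ E := by
      intro x
      exact hs (E.toSubfield.comap (algebraMap k κ)) (fun i =>
        IntermediateField.subset_adjoin _ _ ⟨i, rfl⟩) x
    let : Algebra k E := ((algebraMap k κ).codRestrict E.toSubfield hmem).toAlgebra
    have : IsScalarTower k E κ := IsScalarTower.of_algebraMap_eq (fun _ => rfl)
    have : Algebra.IsAlgebraic k κ := Algebra.IsAlgebraic.of_finite k κ
    exact Algebra.IsAlgebraic.tower_top (K := k) E
  have hle : ∀ x ∈ Subring.closure (A : Set K), x ∈ Algebra.adjoin k (A : Set K) := by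
    intro x hx
    have : Subring.closure (A : Set K) ≤ (Algebra.adjoin k (A : Set K)).toSubring :=
      Subring.closure_le.mpr Algebra.subset_adjoin
    exact this hx
  let Aκ : Finset κ := A.attach.image (fun a => φ ⟨a.1, Algebra.subset_adjoin a.2⟩)
  have hmap : ∀ x (hx : x ∈ Subring.closure (A : Set K)),
      φ ⟨x, hle x hx⟩ ∈ Subring.closure (Aκ : Set κ) := by
    intro x hx
    have h1 : Subring.closure (A : Set K) ≤
        ((Subring.closure (Aκ : Set κ)).comap (φ : Algebra.adjoin k (A : Set K) →+* κ)).map
          ((Algebra.adjoin k (A : Set K)).val : Algebra.adjoin k (A : Set K) →+* K) := by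
      rw [Subring.closure_le]
      intro a ha
      refine ⟨⟨a, Algebra.subset_adjoin ha⟩, ?_, rfl⟩
      refine Subring.subset_closure ?_
      exact Finset.mem_coe.mpr (Finset.mem_image.mpr ⟨⟨a, ha⟩, Finset.mem_attach _ _, rfl⟩)
    obtain ⟨y, hy, hyx⟩ := h1 hx
    have : y = ⟨x, hle x hx⟩ := Subtype.ext hyx
    rw [← this]
    exact hy
  -- the homomorphism to the units of `κ`
  let ρ : unitsIn A →* (Algebra.adjoin k (A : Set K))ˣ :=
    { toFun := fun u => ⟨⟨(u : Kˣ), hle _ u.2.1⟩, ⟨((u : Kˣ)⁻¹ : Kˣ), hle _ u.2.2⟩,
        Subtype.ext (by simp), Subtype.ext (by simp)⟩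
      map_one' := by
        ext
        simp
      map_mul' := by
        intro a b
        ext
        simp }
  let σ : unitsIn A →* κˣ := (Units.map (φ : Algebra.adjoin k (A : Set K) →* κ)).comp ρ
  have hσ : ∀ u, σ u ∈ unitsIn Aκ := by
    intro u
    exact ⟨hmap _ u.2.1, hmap _ u.2.2⟩
  let Ψ : unitsIn A →* Multiplicative (Fin m → ℤ) × unitsIn Aκ :=
    (v.comp (unitsIn A).subtype).prod (σ.codRestrict (unitsIn Aκ) hσ)
  have hinj : Function.Injective Ψ := by
    rw [injective_iff_map_eq_one]
    intro u hu
    have h1 : v (u : Kˣ) = 1 := congrArg Prod.fst hu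
    have h2 : σ u = 1 := congrArg (fun z => ((z.2 : unitsIn Aκ) : κˣ)) hu
    have h3 : φ ⟨((u : Kˣ) : K), hle _ u.2.1⟩ = 1 := congrArg (fun z : κˣ => (z : κ)) h2
    have halg : IsAlgebraic k ((u : Kˣ) : K) := hv _ u.2 h1
    by_contra hne
    have hx0 : (⟨((u : Kˣ) : K), hle _ u.2.1⟩ : Algebra.adjoin k (A : Set K)) - 1 ≠ 0 := by
      intro h
      apply hne
      have h4 := congrArg (fun z : Algebra.adjoin k (A : Set K) => (z : K)) (sub_eq_zero.mp h)
      exact Subtype.ext (Units.ext h4)
    refine res_ne_zero (Algebra.adjoin k (A : Set K)) φ _ ?_ hx0 ?_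
    · exact halg.sub isAlgebraic_one
    · rw [map_sub, h3, map_one, sub_self]
  have hfgκ : Group.FG (unitsIn Aκ) :=
    (Group.fg_iff_subgroup_fg _).mpr (IH κ (fun i => algebraMap k κ (s i)) hκ Aκ)
  have hfgm : Group.FG (Multiplicative (Fin m → ℤ)) := inferInstance
  have hfgp : Group.FG (Multiplicative (Fin m → ℤ) × unitsIn Aκ) := inferInstance
  exact (Group.fg_iff_subgroup_fg _).mp (fg_of_injective hfgp Ψ hinj)

theorem units_fg_aux (r : ℕ) : ∀ (K : Type u) [Field K] [CharZero K] (s : Fin r → K),
    Algebra.IsAlgebraic (IntermediateField.adjoin ℚ (Set.range s)) K →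
      ∀ A : Finset K, (unitsIn A).FG := by
  induction r with
  | zero =>
    intro K _ _ s hs A
    refine units_fg_algebraic ?_ A
    have : Algebra.IsAlgebraic ℚ (IntermediateField.adjoin ℚ (Set.range s)) :=
      IntermediateField.isAlgebraic_adjoin (by
        rintro x ⟨i, -⟩
        exact i.elim0)
    exact Algebra.IsAlgebraic.trans ℚ (IntermediateField.adjoin ℚ (Set.range s)) K
  | succ r IH =>
    intro K _ _ s hs A
    let k := IntermediateField.adjoin ℚ (Set.range fun i : Fin r => s i.castSucc)
    let t := s (Fin.last r)
    let F := IntermediateField.adjoin k {t}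
    have hkF : ∀ x ∈ k, x ∈ F := fun x hx => F.algebraMap_mem ⟨x, hx⟩
    have hEF : ∀ x ∈ IntermediateField.adjoin ℚ (Set.range s), x ∈ F.toSubfield := by
      intro x hx
      have h1 : (IntermediateField.adjoin ℚ (Set.range s)).toSubfield ≤ F.toSubfield := by
        refine Subfield.closure_le.mpr ?_
        rintro y (⟨q, rfl⟩ | ⟨i, rfl⟩)
        · exact hkF _ (k.algebraMap_mem q)
        · refine Fin.lastCases ?_ (fun j => ?_) i
          · exact IntermediateField.subset_adjoin _ _ rfl
          · exact hkF _ (IntermediateField.subset_adjoin _ _ ⟨j, rfl⟩)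
      exact h1 hx
    have hFK : Algebra.IsAlgebraic F K := by
      let : Algebra (IntermediateField.adjoin ℚ (Set.range s)) F :=
        (((IntermediateField.adjoin ℚ (Set.range s)).val :
          (IntermediateField.adjoin ℚ (Set.range s)) →+* K).codRestrict F.toSubfield
            (fun x => hEF _ x.2)).toAlgebra
      have : IsScalarTower (IntermediateField.adjoin ℚ (Set.range s)) F K :=
        IsScalarTower.of_algebraMap_eq (fun _ => rfl)
      exact Algebra.IsAlgebraic.tower_top (K := IntermediateField.adjoin ℚ (Set.range s)) F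
    by_cases ht : IsAlgebraic k t
    · have : Algebra.IsAlgebraic k F := IntermediateField.isAlgebraic_adjoin (by
        rintro x rfl
        exact ht.isIntegral)
      exact IH K (fun i => s i.castSucc) (Algebra.IsAlgebraic.trans k F K) A
    · let K' := IntermediateField.adjoin F (A : Set K)
      have hfin : FiniteDimensional F K' :=
        IntermediateField.finiteDimensional_adjoin (fun x _ => (hFK.isAlgebraic x).isIntegral)
      refine fg_of_range (algebraMap K' K) A
        (fun a ha => ⟨⟨a, IntermediateField.subset_adjoin _ _ ha⟩, rfl⟩) (fun A' => ?_)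
      have _ : IsScalarTower k K' K := IsScalarTower.of_algebraMap_eq (fun _ => rfl)
      let t' : K' := algebraMap F K' ⟨t, IntermediateField.subset_adjoin k {t} rfl⟩
      have ht' : Transcendental k t' := by
        intro h
        exact ht (h.algebraMap (A := K))
      refine units_fg_step IH (k := k) (K := K')
        (fun i => ⟨s i.castSucc, IntermediateField.subset_adjoin _ _ ⟨i, rfl⟩⟩) ?_ t' ht' ?_ A'
      · intro G hG x
        have h1 : k.toSubfield ≤ G.map (algebraMap k K) := by
          refine Subfield.closure_le.mpr ?_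
          rintro y (⟨q, rfl⟩ | ⟨i, rfl⟩)
          · exact ⟨(q : k), SubfieldClass.ratCast_mem G q, by simp⟩
          · exact ⟨_, hG i, rfl⟩
        obtain ⟨y, hy, hyx⟩ := h1 x.2
        have : y = x := (algebraMap k K).injective hyx
        rw [← this]
        exact hy
      · exact finite_adjoin_algebraMap
          (⟨t, IntermediateField.subset_adjoin k {t} rfl⟩ : F) (adjoin_gen_eq_top' t)

/-- **Roquette's theorem**: the unit group of a finitely generated subring of a field of
characteristic zero is finitely generated. -/
theorem units_fg {K : Type u} [Field K] [CharZero K] (A : Finset K) : (unitsIn A).FG := by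
  classical
  let K' := Subfield.closure (A : Set K)
  refine fg_of_range K'.subtype A (fun a ha => ⟨⟨a, Subfield.subset_closure ha⟩, rfl⟩)
    (fun A' => ?_)
  let s : Fin A.card → K' := fun i => ⟨(A.equivFin.symm i : K),
    Subfield.subset_closure (A.equivFin.symm i).2⟩
  refine units_fg_aux A.card K' s ?_ A'
  have hmem : ∀ x : K', x ∈ (IntermediateField.adjoin ℚ (Set.range s)).toSubfield := by
    intro x
    have h1 : K' ≤ ((IntermediateField.adjoin ℚ (Set.range s)).toSubfield).map K'.subtype := by
      refine Subfield.closure_le.mpr ?_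
      intro a ha
      refine ⟨⟨a, Subfield.subset_closure ha⟩, ?_, rfl⟩
      refine IntermediateField.subset_adjoin _ _ ⟨A.equivFin ⟨a, ha⟩, ?_⟩
      exact Subtype.ext (by simp [s])
    obtain ⟨y, hy, hyx⟩ := h1 x.2
    have : y = x := Subtype.ext hyx
    rw [← this]
    exact hy
  exact ⟨fun x => isAlgebraic_algebraMap
    (⟨x, hmem x⟩ : IntermediateField.adjoin ℚ (Set.range s))⟩

end Pool.Agent.Helper26.DMU
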