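import Pool.Agent.Helper26.DMX.SP1

/-! Block DMU-SPB: `exists_spec` (DMX/SP1.lean, helper23) with a uniform bound for the degree of `L`.  Same proof: the set `S` of generators of the integral closure as a `ℤ[t]`-module is chosen before `c`, and `L` is spanned over `ℚ` by the
images of the elements of `S`, so `finrank ℚ L ≤ S.card` (`finrank_span_le_card` or similar). -/

set_option autoImplicit false

namespace Pool.Agent.Helper26.DMU

open MvPolynomial Pool.Agent.Helper26.DMX

variable {r : ℕ} {F : Type} [Field F] [CharZero F] [Algebra (MvPolynomial (Fin r) ℤ) F]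
  [Algebra (FractionRing (MvPolynomial (Fin r) ℤ)) F]
  [IsScalarTower (MvPolynomial (Fin r) ℤ) (FractionRing (MvPolynomial (Fin r) ℤ)) F]
  [FiniteDimensional (FractionRing (MvPolynomial (Fin r) ℤ)) F]

theorem exists_spec_bdd : ∃ d : ℕ, ∀ c : Bint r F, c ≠ 0 →
    ∃ (L : Type) (_ : Field L) (_ : NumberField L) (φ : Bint r F →+* L),
      φ c ≠ 0 ∧ Module.finrank ℚ L ≤ d := by
  classical
  have hCZ : CharZero (FractionRing (MvPolynomial (Fin r) ℤ)) :=
    (RingHom.charZero_iff
      (algebraMap (FractionRing (MvPolynomial (Fin r) ℤ)) F).injective).2 inferInstance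
  have hfin : Module.Finite (MvPolynomial (Fin r) ℤ) (integralClosure (MvPolynomial (Fin r) ℤ) F) :=
    IsIntegralClosure.finite (MvPolynomial (Fin r) ℤ) (FractionRing (MvPolynomial (Fin r) ℤ)) F _
  obtain ⟨S, hS⟩ := hfin.fg_top
  refine ⟨S.card, fun c hc => ?_⟩
  obtain ⟨x, L, iL, nL, φ, hφc, hφs, hval⟩ := exists_spec c hc
  refine ⟨L, iL, nL, φ, hφc, ?_⟩
  have hBmem : ∀ y : integralClosure (MvPolynomial (Fin r) ℤ) F, (y : F) ∈ Bint r F := fun y =>
    ⟨1, one_ne_zero, by
      rw [Int.cast_one, one_mul]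
      exact y.2⟩
  let ι : integralClosure (MvPolynomial (Fin r) ℤ) F →+* Bint r F :=
    { toFun := fun y => ⟨y, hBmem y⟩
      map_one' := rfl
      map_mul' := fun _ _ => rfl
      map_zero' := rfl
      map_add' := fun _ _ => rfl }
  have hspan : ∀ y : integralClosure (MvPolynomial (Fin r) ℤ) F,
      φ (ι y) ∈ Submodule.span ℚ ((fun z => φ (ι z)) '' (S : Set _)) := by
    intro y
    have hy : y ∈ Submodule.span (MvPolynomial (Fin r) ℤ)
        (S : Set (integralClosure (MvPolynomial (Fin r) ℤ) F)) := by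
      rw [hS]
      exact Submodule.mem_top
    induction hy using Submodule.span_induction with
    | mem z hz => exact Submodule.subset_span ⟨z, hz, rfl⟩
    | zero => rw [map_zero, map_zero]; exact Submodule.zero_mem _
    | add a b _ _ ha hb => rw [map_add, map_add]; exact Submodule.add_mem _ ha hb
    | smul f a _ ha =>
      have h1 : ι (f • a) = ⟨algebraMap _ F f, algebraMap_mem_Bint f⟩ * ι a := by
        apply Subtype.ext
        rw [Algebra.smul_def]
        rfl
      rw [h1, map_mul, hval]
      have h2 : ((eval x f : ℤ) : L) * φ (ι a) = ((eval x f : ℤ) : ℚ) • φ (ι a) := by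
        rw [Algebra.smul_def, map_intCast]
      rw [h2]
      exact Submodule.smul_mem _ _ ha
  have htop : Submodule.span ℚ ((S.image (fun z => φ (ι z)) : Finset L) : Set L) = ⊤ := by
    rw [Finset.coe_image, eq_top_iff]
    rintro l -
    obtain ⟨b, rfl⟩ := hφs l
    obtain ⟨m, hm, hmb⟩ := b.2
    have h1 : (m : Bint r F) * b = ι ⟨(m : F) * b, hmb⟩ := by
      apply Subtype.ext
      push_cast
      rfl
    have h2 := congrArg φ h1
    rw [map_mul, map_intCast] at h2
    have hmL : (m : L) ≠ 0 := Int.cast_ne_zero.mpr hm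
    have h3 : φ b = ((m : ℚ)⁻¹) • φ (ι ⟨(m : F) * b, hmb⟩) := by
      rw [← h2, Algebra.smul_def, map_inv₀, map_intCast, ← mul_assoc,
        inv_mul_cancel₀ hmL, one_mul]
    rw [h3]
    exact Submodule.smul_mem _ _ (hspan _)
  calc Module.finrank ℚ L = Module.finrank ℚ (⊤ : Submodule ℚ L) := (finrank_top ℚ L).symm
    _ = Module.finrank ℚ (Submodule.span ℚ ((S.image (fun z => φ (ι z)) : Finset L) : Set L)) := by
        rw [htop]
    _ ≤ (S.image (fun z => φ (ι z))).card := finrank_span_finset_le_card _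
    _ ≤ S.card := Finset.card_image_le

end Pool.Agent.Helper26.DMU
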