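import Mathlib

/-! Block DMU-TOR (about 50 lines).  Let `n'` be the order of `z`: `z` is a primitive `n'`-th root of unity, its minimal polynomial over `ℚ` is the cyclotomic polynomial of degree `φ(n')` (`IsPrimitiveRoot.minpoly_...`, `Polynomial.cyclotomic.irreducible_rat`), so
`φ(n') ≤ finrank ≤ d` (`minpoly.natDegree_le`).  For a prime power `p^a` exactly dividing `n'`, `a ≥ 1`: `p^(a-1) (p-1) = φ(p^a) ∣ φ(n')`, so `p^a ≤ 2 p^(a-1) (p-1) ≤ 2 d` and `p^a ∣ (2d)!`.  Hence `n' ∣ (2d)!`
(`Nat.factorization_prime_le_iff_dvd`, or coprime prime powers). -/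

set_option autoImplicit false

namespace Pool.Agent.Helper26.DMU

theorem dvd_factorial_of_totient_le {n d : ℕ} (hn : 0 < n) (h : n.totient ≤ d) :
    n ∣ (2 * d).factorial := by
  have h1 : ∀ p k : ℕ, p.Prime → p ^ k ∣ n → p ^ k ∣ (2 * d).factorial := by
    intro p k hp hk
    rcases Nat.eq_zero_or_pos k with rfl | hkpos
    · simp
    · have h2 : (p ^ k).totient ∣ n.totient := Nat.totient_dvd_of_dvd hk
      have h3 : (p ^ k).totient ≤ n.totient := Nat.le_of_dvd (Nat.totient_pos.2 hn) h2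
      rw [Nat.totient_prime_pow hp hkpos] at h3
      have h4 : p ^ k ≤ 2 * (p ^ (k - 1) * (p - 1)) := by
        have h5 : p ^ k = p ^ (k - 1) * p := by
          rw [← pow_succ]
          congr 1
          omega
        rw [h5]
        have h6 : p ≤ 2 * (p - 1) := by
          have := hp.two_le
          omega
        calc p ^ (k - 1) * p ≤ p ^ (k - 1) * (2 * (p - 1)) := Nat.mul_le_mul_left _ h6
          _ = 2 * (p ^ (k - 1) * (p - 1)) := by ring
      exact Nat.dvd_factorial (pow_pos hp.pos _) (by omega)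
  rw [← Nat.factorization_prime_le_iff_dvd hn.ne' (Nat.factorial_ne_zero _)]
  intro p hp
  rw [← hp.pow_dvd_iff_le_factorization (Nat.factorial_ne_zero _)]
  exact h1 p _ hp (Nat.ordProj_dvd n p)

theorem torsion_bdd {L : Type*} [Field L] [NumberField L] {d : ℕ} (hd : Module.finrank ℚ L ≤ d)
    (z : L) (n : ℕ) (hn : 0 < n) (hz : z ^ n = 1) : z ^ ((2 * d).factorial) = 1 := by
  have hfin : IsOfFinOrder z := isOfFinOrder_iff_pow_eq_one.2 ⟨n, hn, hz⟩
  have hpos : 0 < orderOf z := hfin.orderOf_pos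
  have hprim : IsPrimitiveRoot z (orderOf z) := IsPrimitiveRoot.orderOf z
  have h1 : Polynomial.cyclotomic (orderOf z) ℚ = minpoly ℚ z :=
    Polynomial.cyclotomic_eq_minpoly_rat hprim hpos
  have h2 : (minpoly ℚ z).natDegree ≤ Module.finrank ℚ L := minpoly.natDegree_le z
  rw [← h1, Polynomial.natDegree_cyclotomic] at h2
  have h3 := dvd_factorial_of_totient_le hpos (h2.trans hd)
  exact orderOf_dvd_iff_pow_eq_one.1 h3

end Pool.Agent.Helper26.DMU
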