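import Pool.Agent.Helper26.DMC.SU1
import Pool.Agent.Helper26.DMX.TOW
import Pool.Agent.Helper26.DMU.Defs
import Pool.Agent.Helper26.DMU.SPB
import Pool.Agent.Helper26.DMU.TOR
import Pool.Agent.Helper26.DMU.GL

/-! DMU-UI (helper26): the unit theorem for finitely generated groups of complex numbers. -/

set_option autoImplicit false

namespace Pool.Agent.Helper26.DMU

open MvPolynomial NumberField Pool.Agent.Helper26.DMC Pool.Agent.Helper26.DMX

/-- a subring of `ℂ` with many homomorphisms to number fields of bounded degree -/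
theorem exists_subring (A₁ : Finset ℂ) :
    ∃ S : Subring ℂ, (∀ z ∈ A₁, z ∈ S) ∧ ∃ d : ℕ, ∀ c : S, c ≠ 0 →
      ∃ (L : Type) (_ : Field L) (_ : NumberField L) (φ : S →+* L),
        φ c ≠ 0 ∧ Module.finrank ℚ L ≤ d := by
  obtain ⟨r, F, iF, iC, iA, iA', iT, iD, iG, j, hj⟩ := exists_tower A₁
  obtain ⟨d, hd⟩ := exists_spec_bdd (r := r) (F := F)
  let e := (Bint r F).equivMapOfInjective j j.injective
  refine ⟨(Bint r F).map j, ?_, d, ?_⟩
  · intro z hz
    obtain ⟨w, hw, hw'⟩ := hj z hz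
    exact ⟨w, hw', hw⟩
  · intro c hc
    have h0 : e.symm c ≠ 0 := by
      intro h
      apply hc
      rw [← e.apply_symm_apply c, h, map_zero]
    obtain ⟨L, i1, i2, φ, h1, h2⟩ := hd (e.symm c) h0
    exact ⟨L, i1, i2, φ.comp (e.symm : (Bint r F).map j →+* Bint r F), h1, h2⟩

/-- specialisations to number fields of degree at most `d` -/
structure Spec (S : Subring ℂ) (d : ℕ) : Type 1 where
  L : Type
  [fL : Field L]
  [nL : NumberField L]
  φ : S →+* L
  hd : Module.finrank ℚ L ≤ d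

attribute [instance] Spec.fL Spec.nL

/-- the homomorphism from a group of units of `S` -/
def toUnits (S : Subring ℂ) (G : Subgroup ℂˣ) (hG : ∀ g ∈ G, (g : ℂ) ∈ S) : G →* Sˣ where
  toFun g := ⟨⟨(g : ℂˣ), hG g g.2⟩, ⟨((g⁻¹ : G) : ℂˣ), hG _ (g⁻¹).2⟩, by
    apply Subtype.ext
    change ((g : ℂˣ) : ℂ) * (((g⁻¹ : G) : ℂˣ) : ℂ) = 1
    rw [← Units.val_mul, ← Subgroup.coe_mul, mul_inv_cancel]
    rfl, by
    apply Subtype.ext
    change (((g⁻¹ : G) : ℂˣ) : ℂ) * ((g : ℂˣ) : ℂ) = 1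
    rw [← Units.val_mul, ← Subgroup.coe_mul, inv_mul_cancel]
    rfl⟩
  map_one' := by
    apply Units.ext
    apply Subtype.ext
    rfl
  map_mul' a b := by
    apply Units.ext
    apply Subtype.ext
    rfl

theorem toUnits_coe (S : Subring ℂ) (G : Subgroup ℂˣ) (hG : ∀ g ∈ G, (g : ℂ) ∈ S) (g : G) :
    (((toUnits S G hG g : Sˣ) : S) : ℂ) = ((g : ℂˣ) : ℂ) := rfl

section

variable {S : Subring ℂ} {G : Subgroup ℂˣ} (hG : ∀ g ∈ G, (g : ℂ) ∈ S)

/-- the homomorphism to the units of the number field -/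
def Spec.hom {d : ℕ} (σ : Spec S d) : G →* (σ.L)ˣ := (Units.map (σ.φ : S →* σ.L)).comp (toUnits S G hG)

theorem Spec.hom_coe {d : ℕ} (σ : Spec S d) (g : G) :
    ((σ.hom hG g : (σ.L)ˣ) : σ.L) = σ.φ (toUnits S G hG g : Sˣ) := rfl

/-- the values are units outside finitely many places -/
theorem exists_places {d : ℕ} (σ : Spec S d) (hfg : G.FG) :
    ∃ P : Finset (FinitePlace σ.L), ∀ g : G, ∀ v : FinitePlace σ.L, v ∉ P →
      v ((σ.hom hG g : (σ.L)ˣ) : σ.L) = 1 := by
  classical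
  obtain ⟨T, hT⟩ := hfg
  have hTG : ∀ t ∈ T, t ∈ G := fun t ht => by
    rw [← hT]
    exact Subgroup.subset_closure ht
  let w : T → σ.L := fun t => ((σ.hom hG ⟨t, hTG t t.2⟩ : (σ.L)ˣ) : σ.L)
  have hfin : (⋃ t : T, {v : FinitePlace σ.L | v (w t) ≠ 1}).Finite :=
    Set.finite_iUnion fun t => FinitePlace.hasFiniteMulSupport (Units.ne_zero _)
  refine ⟨hfin.toFinset, ?_⟩
  rintro ⟨g, hg⟩ v hv
  rw [Set.Finite.mem_toFinset, Set.mem_iUnion] at hv
  push Not at hv
  have hgT : g ∈ Subgroup.closure (T : Set ℂˣ) := by rw [hT]; exact hg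
  have key : ∀ (g : ℂˣ) (_ : g ∈ Subgroup.closure (T : Set ℂˣ)), ∀ hg' : g ∈ G,
      v ((σ.hom hG ⟨g, hg'⟩ : (σ.L)ˣ) : σ.L) = 1 := by
    intro g hgT
    induction hgT using Subgroup.closure_induction with
    | mem t ht =>
      intro hg'
      have h1 : ¬ v (w ⟨t, ht⟩) ≠ 1 := hv ⟨t, ht⟩
      push Not at h1
      exact h1
    | one =>
      intro hg'
      have : (⟨1, hg'⟩ : G) = 1 := rfl
      rw [this, map_one, Units.val_one, map_one]
    | mul a b ha hb iha ihb =>
      intro hg'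
      have ha' : a ∈ G := by rw [← hT]; exact ha
      have hb' : b ∈ G := by rw [← hT]; exact hb
      have : (⟨a * b, hg'⟩ : G) = ⟨a, ha'⟩ * ⟨b, hb'⟩ := rfl
      rw [this, map_mul, Units.val_mul, map_mul, iha ha', ihb hb', one_mul]
    | inv a ha iha =>
      intro hg'
      have ha' : a ∈ G := by rw [← hT]; exact ha
      have : (⟨a⁻¹, hg'⟩ : G) = (⟨a, ha'⟩ : G)⁻¹ := rfl
      rw [this, map_inv, Units.val_inv_eq_inv_val, map_inv₀, iha ha', inv_one]
  exact key g hgT hg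

end

/-- **the unit theorem for finitely generated groups of complex numbers** -/
theorem unit_indep_complex (U : Ultrafilter ℕ) (G : Subgroup ℂˣ) (hfg : G.FG) :
    UnitIndep U G := by
  classical
  intro n y hy hne c hsum
  by_contra hc
  obtain ⟨T, hT⟩ := hfg
  -- the ring
  let A₁ : Finset ℂ := T.image (fun t : ℂˣ => (t : ℂ)) ∪ T.image (fun t : ℂˣ => ((t⁻¹ : ℂˣ) : ℂ)) ∪
    Finset.univ.image c
  obtain ⟨S, hS, d, hd⟩ := exists_subring A₁
  have hcS : ∀ i, c i ∈ S := fun i => hS _ (Finset.mem_union_right _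
    (Finset.mem_image_of_mem _ (Finset.mem_univ i)))
  have hG' : ∀ g ∈ Subgroup.closure (T : Set ℂˣ), (g : ℂ) ∈ S ∧ ((g⁻¹ : ℂˣ) : ℂ) ∈ S := by
    intro g hg
    induction hg using Subgroup.closure_induction with
    | mem t ht =>
      exact ⟨hS _ (Finset.mem_union_left _ (Finset.mem_union_left _
        (Finset.mem_image_of_mem (fun t : ℂˣ => (t : ℂ)) ht))),
        hS _ (Finset.mem_union_left _ (Finset.mem_union_right _
        (Finset.mem_image_of_mem (fun t : ℂˣ => ((t⁻¹ : ℂˣ) : ℂ)) ht)))⟩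
    | one => exact ⟨by rw [Units.val_one]; exact one_mem S, by rw [inv_one, Units.val_one]; exact one_mem S⟩
    | mul a b ha hb iha ihb =>
      refine ⟨by rw [Units.val_mul]; exact mul_mem iha.1 ihb.1, ?_⟩
      rw [mul_inv, Units.val_mul]
      exact mul_mem iha.2 ihb.2
    | inv a ha iha => exact ⟨iha.2, by rw [inv_inv]; exact iha.1⟩
  have hG : ∀ g ∈ G, (g : ℂ) ∈ S := fun g hg => (hG' g (by rw [hT]; exact hg)).1
  have hfg : G.FG := ⟨T, hT⟩
  -- the sequences in `G`
  have hy' : ∀ᶠ j in (U : Filter ℕ), ∀ i, ∃ g ∈ G, (g : ℂ) = y i j := Filter.eventually_all.2 hy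
  have hg : ∃ g : Fin n → ℕ → G, ∀ᶠ j in (U : Filter ℕ), ∀ i, (((g i j : G) : ℂˣ) : ℂ) = y i j := by
    have h1 : ∀ j i, ∃ g : G, (∃ g ∈ G, (g : ℂ) = y i j) → ((g : ℂˣ) : ℂ) = y i j := by
      intro j i
      by_cases h : ∃ g ∈ G, (g : ℂ) = y i j
      · obtain ⟨g, hg, hg'⟩ := h
        exact ⟨⟨g, hg⟩, fun _ => hg'⟩
      · exact ⟨1, fun h' => absurd h' h⟩
    choose g hg using h1
    refine ⟨fun i j => g j i, ?_⟩
    filter_upwards [hy'] with j hj i
    exact hg j i (hj i)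
  obtain ⟨g, hg⟩ := hg
  let I : Finset (Fin n) := Finset.univ.filter fun i => c i ≠ 0
  have hI : I.Nonempty := by
    by_contra h
    rw [Finset.not_nonempty_iff_eq_empty] at h
    apply hc
    funext i
    by_contra hi
    have : i ∈ I := Finset.mem_filter.mpr ⟨Finset.mem_univ i, hi⟩
    rw [h] at this
    exact absurd this (Finset.notMem_empty i)
  let cS : Fin n → S := fun i => ⟨c i, hcS i⟩
  let b : S := ∏ i ∈ I, cS i
  have hb : b ≠ 0 := by
    rw [Finset.prod_ne_zero_iff]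
    intro i hi h0
    exact (Finset.mem_filter.mp hi).2 (congrArg Subtype.val h0)
  -- claim 1
  have claim1 : ∀ σ : Spec S d, σ.φ b ≠ 0 → ∃ i i', i ≠ i' ∧ ∃ a : (σ.L)ˣ,
      ∀ᶠ j in (U : Filter ℕ), σ.hom hG (g i j / g i' j) = a := by
    intro σ hσ
    by_contra hcon
    push Not at hcon
    obtain ⟨P, hP⟩ := exists_places hG σ hfg
    let ε := I.equivFin.symm
    have hεinj : ∀ i i', i ≠ i' → ((ε i : I) : Fin n) ≠ ((ε i' : I) : Fin n) := by
      intro i i' h h'
      exact h (ε.injective (Subtype.ext h'))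
    have h1 := sunit_indep U P (fun (i : Fin I.card) j => ((σ.hom hG (g (ε i) j) : (σ.L)ˣ) : σ.L))
      (fun i => Filter.Eventually.of_forall fun j => ⟨Units.ne_zero _, fun v hv => hP _ v hv⟩)
      (by
        rintro i i' hii ⟨a, ha⟩
        have ha0 : a ≠ 0 := by
          obtain ⟨j, hj⟩ := ha.exists
          rintro rfl
          rw [zero_mul] at hj
          exact Units.ne_zero _ hj
        obtain ⟨j, hj', hj⟩ := ((hcon _ _ (hεinj i i' hii) (Units.mk0 a ha0)).and ha).exists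
        apply hj'
        rw [map_div]
        apply Units.ext
        rw [Units.val_div_eq_div_val, Units.val_mk0, hj, mul_div_assoc, div_self (Units.ne_zero _), mul_one])
      (fun i => σ.φ (cS (ε i))) (by
        filter_upwards [hsum, hg] with j hj hgj
        have h2 : ∑ i ∈ I, cS i * ((toUnits S G hG (g i j) : Sˣ) : S) = 0 := by
          apply Subtype.ext
          rw [AddSubmonoidClass.coe_finsetSum, ZeroMemClass.coe_zero, ← hj]
          rw [Finset.sum_filter]
          apply Finset.sum_congr rfl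
          intro i _
          split_ifs with h
          · rw [MulMemClass.coe_mul, toUnits_coe, hgj i]
          · push Not at h
            rw [h, zero_mul]
        have h3 : ∑ i ∈ I, σ.φ (cS i) * ((σ.hom hG (g i j) : (σ.L)ˣ) : σ.L) = 0 := by
          have := congrArg σ.φ h2
          rw [map_sum, map_zero] at this
          rw [← this]
          apply Finset.sum_congr rfl
          intro i _
          rw [map_mul, Spec.hom_coe]
        rw [← h3, ← Finset.sum_coe_sort I]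
        exact Fintype.sum_equiv ε _ _ fun i => rfl)
    obtain ⟨i₀, hi₀⟩ := hI
    have h4 := congrFun h1 (I.equivFin ⟨i₀, hi₀⟩)
    have h5 : ((ε (I.equivFin ⟨i₀, hi₀⟩) : I) : Fin n) = i₀ := by
      simp [ε]
    rw [h5, Pi.zero_apply] at h4
    apply hσ
    rw [map_prod]
    exact Finset.prod_eq_zero hi₀ h4
  -- claim 2
  have claim2 : ∃ i i', i ≠ i' ∧ ∀ c : S, c ≠ 0 → ∃ σ : Spec S d, σ.φ c ≠ 0 ∧ ∃ a : (σ.L)ˣ,
      ∀ᶠ j in (U : Filter ℕ), σ.hom hG (g i j / g i' j) = a := by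
    by_contra hcon
    push Not at hcon
    choose! e he1 he2 using hcon
    let Q : Finset (Fin n × Fin n) := Finset.univ.filter fun p => p.1 ≠ p.2
    have hC : b * ∏ p ∈ Q, e p.1 p.2 ≠ 0 := by
      apply mul_ne_zero hb
      rw [Finset.prod_ne_zero_iff]
      intro p hp
      exact he1 p.1 p.2 (Finset.mem_filter.mp hp).2
    obtain ⟨L, i1, i2, φ, h1, h2⟩ := hd _ hC
    let σ : Spec S d := ⟨L, φ, h2⟩
    have h1' : σ.φ (b * ∏ p ∈ Q, e p.1 p.2) ≠ 0 := h1
    rw [map_mul] at h1'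
    obtain ⟨i, i', hii, a, ha⟩ := claim1 σ (left_ne_zero_of_mul h1')
    have h3 := right_ne_zero_of_mul h1'
    rw [map_prod, Finset.prod_ne_zero_iff] at h3
    obtain ⟨j, hj, hj'⟩ := ((he2 i i' hii σ (h3 (i, i')
      (Finset.mem_filter.mpr ⟨Finset.mem_univ _, hii⟩)) a).and ha).exists
    exact hj hj'
  obtain ⟨i, i', hii, hsep⟩ := claim2
  -- claim 3
  let ι := {σ : Spec S d // ∃ a : (σ.L)ˣ, ∀ᶠ j in (U : Filter ℕ), σ.hom hG (g i j / g i' j) = a}
  have hGfg : Group.FG G := (Group.fg_iff_subgroup_fg G).mpr hfg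
  obtain ⟨T', hT'⟩ := group_lemma (G := G) hGfg (ι := ι) (H := fun σ => (σ.1.L)ˣ)
    (fun σ => σ.1.hom hG) ((2 * d).factorial) (Nat.factorial_pos _) (by
      intro σ x m hm hx
      apply Units.ext
      rw [Units.val_pow_eq_pow_val, Units.val_one]
      apply torsion_bdd σ.1.hd _ m hm
      rw [← Units.val_pow_eq_pow_val, hx, Units.val_one]) (by
      intro x hx
      have h0 : ((toUnits S G hG x : Sˣ) : S) - 1 ≠ 0 := by
        intro h
        apply hx
        apply Subtype.ext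
        apply Units.ext
        have := congrArg Subtype.val (sub_eq_zero.mp h)
        exact this
      obtain ⟨σ, hσ, ha⟩ := hsep _ h0
      refine ⟨⟨σ, ha⟩, ?_⟩
      intro h
      apply hσ
      rw [map_sub, map_one]
      have h2 := congrArg Units.val h
      rw [Spec.hom_coe, Units.val_one] at h2
      rw [h2, sub_self])
  have hall : ∀ σ : ι, ∃ a : (σ.1.L)ˣ, ∀ᶠ j in (U : Filter ℕ), σ.1.hom hG (g i j / g i' j) = a :=
    fun σ => σ.2
  choose a ha using hall
  have hev : ∀ᶠ j in (U : Filter ℕ), ∀ σ ∈ T', σ.1.hom hG (g i j / g i' j) = a σ :=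
    (Filter.eventually_all_finset T').2 fun σ _ => ha σ
  obtain ⟨j₀, hj₀⟩ := hev.exists
  apply hne i i' hii
  refine ⟨((g i j₀ / g i' j₀ : G) : ℂˣ), ?_⟩
  filter_upwards [hev, hg] with j hj hgj
  have h1 : (g i j / g i' j) / (g i j₀ / g i' j₀) = 1 := by
    apply hT'
    intro σ hσ
    rw [map_div, hj σ hσ, hj₀ σ hσ, div_self']
  rw [div_eq_one] at h1
  rw [← h1, ← hgj i, ← hgj i', ← Units.val_mul, ← Subgroup.coe_mul, div_mul_cancel]

end Pool.Agent.Helper26.DMU
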