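import Pool.Agent.Helper26.DMC.FI
import Pool.Agent.Helper26.DMU.UI
import Pool.Agent.Helper26.DMU.RQI
import Pool.Agent.Helper26.DMU.GW
import Pool.Agent.Helper26.DMX.BC

/-! DMU-TRC (helper26): the transfer theorem and the final theorems over the complex numbers. -/

set_option autoImplicit false

namespace Pool.Agent.Helper26.DMU

open MvPolynomial Pool.Agent.Helper26.DMC

theorem unitsIn_mono {K : Type*} [Field K] {A A' : Finset K} (h : A ⊆ A') :
    unitsIn A ≤ unitsIn A' := by
  rintro u ⟨h1, h2⟩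
  have h3 : Subring.closure (A : Set K) ≤ Subring.closure (A' : Set K) :=
    Subring.closure_mono (Finset.coe_subset.mpr h)
  exact ⟨h3 h1, h3 h2⟩

section before

variable {K : Type*} [Field K] {N : ℕ}

lemma eval_mem' (S : Subring K) (F : MvPolynomial (Fin N) K) (x : Fin N → K)
    (hF : ∀ d, F.coeff d ∈ S) (hx : ∀ i, x i ∈ S) : eval x F ∈ S := by
  rw [eval_eq]
  apply sum_mem
  intro d _
  apply mul_mem (hF d)
  apply prod_mem
  intro i _
  exact pow_mem (hx i) _

/-- before a return time the value of `h` is a unit of a finitely generated ring -/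
theorem unit_before_gen {Φ : Fin N → MvPolynomial (Fin N) K} {h : MvPolynomial (Fin N) K} {m : ℕ}
    {β : Fin N → K} (hc : Contr Φ h m β) (α : Fin N → K) (V : Set (MvPolynomial (Fin N) K))
    (k : ℕ) (hk : ∃ F ∈ V, eval ((pmap Φ)^[k] β) F ≠ 0) :
    ∃ A : Finset K, ∀ i : ℕ, (∀ F ∈ V, eval ((pmap Φ)^[i + m + k] α) F = 0) →
      ∃ g ∈ unitsIn A, (g : K) = eval ((pmap Φ)^[i] α) h := by
  classical
  obtain ⟨F, hF, hw⟩ := hk
  set w := eval ((pmap Φ)^[k] β) F with hwdef
  obtain ⟨G, hG⟩ := hc.dvd k F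
  let A : Finset K := (Finset.univ.biUnion fun i => (Φ i).coeffs) ∪ Finset.univ.image α ∪
    h.coeffs ∪ G.coeffs ∪ {w⁻¹}
  have hcoe : ∀ (P : MvPolynomial (Fin N) K), P.coeffs ⊆ A →
      ∀ d, P.coeff d ∈ Subring.closure (A : Set K) := by
    intro P hP d
    by_cases h0 : P.coeff d = 0
    · rw [h0]; exact zero_mem _
    · exact Subring.subset_closure (hP (coeff_mem_coeffs d h0))
  have h1 : ∀ i d, (Φ i).coeff d ∈ Subring.closure (A : Set K) := by
    intro i
    apply hcoe
    intro z hz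
    exact Finset.mem_union_left _ (Finset.mem_union_left _ (Finset.mem_union_left _
      (Finset.mem_union_left _ (Finset.mem_biUnion.mpr ⟨i, Finset.mem_univ i, hz⟩))))
  have h2 : ∀ i, α i ∈ Subring.closure (A : Set K) := fun i =>
    Subring.subset_closure (Finset.mem_coe.mpr (Finset.mem_union_left _ (Finset.mem_union_left _
      (Finset.mem_union_left _ (Finset.mem_union_right _
        (Finset.mem_image_of_mem α (Finset.mem_univ i)))))))
  have h3 : ∀ d, h.coeff d ∈ Subring.closure (A : Set K) := by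
    apply hcoe
    intro z hz
    exact Finset.mem_union_left _ (Finset.mem_union_left _ (Finset.mem_union_right _ hz))
  have h4 : ∀ d, G.coeff d ∈ Subring.closure (A : Set K) := by
    apply hcoe
    intro z hz
    exact Finset.mem_union_left _ (Finset.mem_union_right _ hz)
  have h5 : w⁻¹ ∈ Subring.closure (A : Set K) :=
    Subring.subset_closure (Finset.mem_coe.mpr (Finset.mem_union_right _ (Finset.mem_singleton_self _)))
  have hx : ∀ n i, (pmap Φ)^[n] α i ∈ Subring.closure (A : Set K) := by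
    intro n
    induction n with
    | zero => exact h2
    | succ n ih =>
      intro i
      rw [Function.iterate_succ_apply']
      exact eval_mem' _ _ _ (h1 i) ih
  refine ⟨A, fun i hi => ?_⟩
  have h6 : eval ((pmap Φ)^[i] α) h * eval ((pmap Φ)^[i] α) G = -w := by
    have h7 := congrArg (eval ((pmap Φ)^[i] α)) hG
    rw [map_sub, eval_C, eval_bind_iter, ← Function.iterate_add_apply, map_mul] at h7
    rw [← h7]
    have h8 := hi F hF
    rw [show i + m + k = m + k + i by omega] at h8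
    rw [h8, zero_sub]
  have h7 : eval ((pmap Φ)^[i] α) h * (eval ((pmap Φ)^[i] α) G * -w⁻¹) = 1 := by
    rw [← mul_assoc, h6]
    field_simp
  refine ⟨⟨eval ((pmap Φ)^[i] α) h, eval ((pmap Φ)^[i] α) G * -w⁻¹, h7, by rw [mul_comm]; exact h7⟩,
    ⟨?_, ?_⟩, rfl⟩
  · exact eval_mem' _ _ _ h3 (hx i)
  · exact mul_mem (eval_mem' _ _ _ h4 (hx i)) (neg_mem h5)

end before

variable {N : ℕ}

theorem transfer_complex {Φ : Fin N → MvPolynomial (Fin N) ℂ} {h : MvPolynomial (Fin N) ℂ} (hh : ∀ c, h ≠ C c)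
    {m : ℕ} (hm : 0 < m) {β : Fin N → ℂ} (hc : Contr Φ h m β)
    (hβ : ∀ p, 0 < p → (pmap Φ)^[p] β ≠ β) {α : Fin N → ℂ} (hα : Dense Φ α)
    (V : Set (MvPolynomial (Fin N) ℂ))
    (hinf : {n | ∀ F ∈ V, eval ((pmap Φ)^[n] α) F = 0}.Infinite) :
    ∃ B : ℕ, ∀ k, ∃ j, j ≤ B ∧ ∀ F ∈ V, eval ((pmap Φ)^[k + j] β) F = 0 := by
  classical
  have hK : Infinite ℂ := inferInstance
  have hN : Nonempty (Fin N) := by
    by_contra hcon
    have : IsEmpty (Fin N) := not_nonempty_iff.mp hcon
    exact hh _ (MvPolynomial.eq_C_of_isEmpty h)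
  set x : ℕ → Fin N → ℂ := fun n => (pmap Φ)^[n] α with hx
  have hxadd : ∀ i j, (pmap Φ)^[j] (x i) = x (i + j) := by
    intro i j
    simp only [hx]
    rw [← Function.iterate_add_apply, add_comm]
  -- the sequence of polynomials
  set s : ℕ → MvPolynomial (Fin N) ℂ := fun i => bind₁ (iter Φ i) h with hs
  have hinj := hα.injective
  have hsh : Shift ℂ s := ⟨bind₁ Φ, hinj, fun i => (bind_iter_succ Φ i h).symm⟩
  have hevs : ∀ i n, eval (x n) (s i) = eval (x (n + i)) h := by
    intro i n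
    simp only [hs]
    rw [eval_bind_iter, hxadd]
  have hb := hc.ne_zero hβ hm
  have hdvd : ∀ i k, s i ∣ s (i + m + k) - C (eval ((pmap Φ)^[k] β) h) := by
    intro i k
    obtain ⟨G, hG⟩ := hc.dvd k h
    refine ⟨bind₁ (iter Φ i) G, ?_⟩
    simp only [hs]
    rw [add_assoc, bind_iter_add, ← map_mul, ← hG, map_sub, bind₁_C_right]
  have hnc : ∀ i c, s i ≠ C c := by
    intro i c hic
    apply hh c
    apply bind_iter_injective hinj i
    rw [bind₁_C_right]
    exact hic
  obtain ⟨L₀, hL₀⟩ := key s hsh m _ hb hdvd hnc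
  obtain ⟨Md, hMd⟩ := determ Φ h
  set L := max L₀ (Md + 1) with hL
  obtain ⟨Q, hQ0, hQ⟩ := exists_detect (K := ℂ) (fun j : Fin L => s j)
  set P : MvPolynomial (Fin N) ℂ := ∏ q ∈ Q, q with hP
  have hP0 : P ≠ 0 := by
    rw [hP, Finset.prod_ne_zero_iff]
    intro q hq h0
    exact hQ0 (h0 ▸ hq)
  obtain ⟨M, hM⟩ := noeth Φ P
  by_contra hcon
  push Not at hcon
  obtain ⟨k₀, hk₀⟩ := hcon (M + L)
  set B := M + L with hB
  have hunit : ∀ j, j ≤ B → ∃ A : Finset ℂ, ∀ i : ℕ,
      (∀ F ∈ V, eval (x (i + m + (k₀ + j))) F = 0) →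
      ∃ g ∈ unitsIn A, (g : ℂ) = eval (x i) h := fun j hj =>
    unit_before_gen hc α V (k₀ + j) (hk₀ j hj)
  choose! S' hS' using hunit
  set S : Subgroup ℂˣ := unitsIn ((Finset.range (B + 1)).biUnion S') with hS
  -- the ultrafilter
  set Ret : Set ℕ := {n | ∀ F ∈ V, eval (x n) F = 0} with hRet
  have hne : (Filter.cofinite ⊓ Filter.principal Ret).NeBot :=
    Filter.cofinite_inf_principal_neBot_iff.mpr hinf
  let U : Ultrafilter ℕ := Ultrafilter.of (Filter.cofinite ⊓ Filter.principal Ret)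
  have hU : (U : Filter ℕ) ≤ Filter.cofinite ⊓ Filter.principal Ret := Ultrafilter.of_le _
  have hU1 : ∀ᶠ n in (U : Filter ℕ), n ∈ Ret :=
    hU (Filter.mem_inf_of_right (Filter.mem_principal_self Ret))
  have hU2 : (U : Filter ℕ) ≤ Filter.atTop := by
    rw [← Nat.cofinite_eq_atTop]
    exact hU.trans inf_le_left
  set base : ℕ → ℕ := fun n => n - (m + k₀ + B) with hbase
  have hlarge : ∀ c : ℕ, ∀ᶠ n in (U : Filter ℕ), c ≤ n := fun c => hU2 (Filter.eventually_ge_atTop c)
  have hUI : UnitIndep U S := unit_indep_complex U S (units_fg _)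
  have hSU : ∀ l, l ≤ B → GUnit U S (fun n => eval (x (base n + l)) h) := by
    intro l hl
    filter_upwards [hU1, hlarge (m + k₀ + B)] with n hn hn'
    have h1 : base n + l + m + (k₀ + (B - l)) = n := by
      simp only [hbase]; omega
    obtain ⟨g, hg, hg'⟩ := hS' (B - l) (by omega) (base n + l) (by rw [h1]; exact hn)
    refine ⟨g, unitsIn_mono ?_ hg, hg'⟩
    exact Finset.subset_biUnion_of_mem S' (Finset.mem_range.mpr (by omega))
  -- main claim
  have hclaim : ∀ l, l ≤ M → ∀ᶠ n in (U : Filter ℕ), eval (x (base n + l)) P = 0 := by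
    intro l hl
    have hu : ∀ j : Fin L, GUnit U S (fun n => eval (x (base n + l + j)) h) := by
      intro j
      have := hSU (l + j) (by have := j.2; omega)
      simpa only [← add_assoc] using this
    rcases gwindow U S hUI (fun (j : Fin L) n => eval (x (base n + l + j)) h) hu with ⟨c, hcst⟩ | ⟨a, ha, hF⟩
    · exfalso
      obtain ⟨n₁, hn₁, hn₁'⟩ := (hcst.and (hlarge (m + k₀ + B))).exists
      obtain ⟨n₂, hn₂, hn₂'⟩ := (hcst.and (hlarge (n₁ + 1))).exists
      have hbb : base n₁ < base n₂ := by simp only [hbase]; omega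
      have heq : ∀ t, eval (x (base n₁ + l + t)) h = eval (x (base n₂ + l + t)) h := by
        intro t
        have h1 := hMd (x (base n₁ + l)) (x (base n₂ + l)) (by
          intro j hj
          rw [hxadd, hxadd]
          have h2 := hn₁ ⟨j, by omega⟩
          have h3 := hn₂ ⟨j, by omega⟩
          simp only at h2 h3
          rw [h2, h3]) t
        rwa [hxadd, hxadd] at h1
      obtain ⟨p, hp⟩ : ∃ p, base n₂ = base n₁ + (p + 1) := ⟨base n₂ - base n₁ - 1, by omega⟩
      set P' : MvPolynomial (Fin N) ℂ :=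
        ∏ t ∈ Finset.range (p + 1), (h - C (eval (x (base n₁ + l + t)) h)) with hP'
      have hP'0 : P' ≠ 0 := by
        rw [hP', Finset.prod_ne_zero_iff]
        intro t _ h0
        exact hh _ (sub_eq_zero.mp h0)
      obtain ⟨n, hn, hnP⟩ := hα.tail hP'0 (base n₁ + l)
      apply hnP
      have hper : ∀ t, ∃ t' < p + 1, eval (x (base n₁ + l + t)) h = eval (x (base n₁ + l + t')) h := by
        intro t
        induction t using Nat.strong_induction_on with
        | _ t ih =>
          rcases lt_or_ge t (p + 1) with h1 | h1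
          · exact ⟨t, h1, rfl⟩
          · obtain ⟨t', ht', he⟩ := ih (t - (p + 1)) (by omega)
            refine ⟨t', ht', ?_⟩
            have e1 : base n₁ + l + t = base n₂ + l + (t - (p + 1)) := by omega
            rw [e1, ← heq (t - (p + 1)), he]
      obtain ⟨t, rfl⟩ := Nat.exists_eq_add_of_le hn
      obtain ⟨t', ht', he⟩ := hper t
      change eval (x (base n₁ + l + t)) P' = 0
      rw [hP', map_prod]
      apply Finset.prod_eq_zero (Finset.mem_range.mpr ht')
      rw [map_sub, eval_C, he, sub_self]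
    · have hnot : ¬ HomRel ℂ (fun j : Fin L => s j) a := fun hcon' =>
        ha (hL₀ L (le_max_left _ _) a hcon')
      obtain ⟨F, hFs, t, htQ⟩ := hQ a hnot
      have hev : ∀ (G : MvPolynomial (Fin L) ℂ) (n : ℕ),
          eval (fun j : Fin L => eval (x (base n + l + j)) h) G =
            eval (x (base n + l)) (aeval (fun j : Fin L => s j) G) := by
        intro G n
        have h1 : (eval (x (base n + l))) (aeval (fun j : Fin L => s j) G) =
            aeval (fun j : Fin L => aeval (x (base n + l)) (s j)) G := by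
          rw [← coe_aeval_eq_eval, RingHom.coe_coe, comp_aeval_apply]
        rw [h1, ← coe_aeval_eq_eval, RingHom.coe_coe]
        congr 2
        funext j
        change _ = eval (x (base n + l)) (s j)
        rw [hevs]
      have h1 := hF F (Filter.Eventually.of_forall fun n => by rw [hev, hFs, map_zero]) t
      filter_upwards [h1] with n hn
      rw [hev] at hn
      rw [hP, map_prod]
      exact Finset.prod_eq_zero htQ hn
  have hall : ∀ᶠ n in (U : Filter ℕ), ∀ l ∈ Finset.range (M + 1), eval (x (base n + l)) P = 0 := by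
    rw [Filter.eventually_all_finset]
    intro l hl
    exact hclaim l (by rw [Finset.mem_range] at hl; omega)
  obtain ⟨n, hn⟩ := hall.exists
  have hvan := hM (x (base n)) (fun j hj => by
    rw [hxadd]; exact hn j (Finset.mem_range.mpr (by omega)))
  obtain ⟨n', hn', hne'⟩ := hα.tail hP0 (base n)
  obtain ⟨t, rfl⟩ := Nat.exists_eq_add_of_le hn'
  apply hne'
  have := hvan t
  rwa [hxadd] at this



/-- dense orbits meet a proper closed subset only finitely often -/
theorem finite_of_dense_complex {Φ : Fin N → MvPolynomial (Fin N) ℂ} {h : MvPolynomial (Fin N) ℂ}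
    (hh : ∀ c, h ≠ C c) {m : ℕ} (hm : 0 < m) {β : Fin N → ℂ} (hc : Contr Φ h m β)
    (hβ : DMC.Dense Φ β) {α : Fin N → ℂ} (hα : DMC.Dense Φ α) {P : MvPolynomial (Fin N) ℂ}
    (hP : P ≠ 0) :
    {n | eval ((pmap Φ)^[n] α) P = 0}.Finite := by
  have hN : Nonempty (Fin N) := by
    by_contra hcon
    have : IsEmpty (Fin N) := not_nonempty_iff.mp hcon
    exact hh _ (MvPolynomial.eq_C_of_isEmpty h)
  by_contra hinf
  have hinf' : {n | ∀ F ∈ ({P} : Set (MvPolynomial (Fin N) ℂ)),
      eval ((pmap Φ)^[n] α) F = 0}.Infinite := by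
    have e1 : {n | ∀ F ∈ ({P} : Set (MvPolynomial (Fin N) ℂ)), eval ((pmap Φ)^[n] α) F = 0} =
        {n | eval ((pmap Φ)^[n] α) P = 0} := by
      ext n
      simp only [Set.mem_ofPred_eq, Set.mem_singleton_iff, forall_eq]
    rw [e1]
    exact hinf
  obtain ⟨B, hB⟩ := transfer_complex hh hm hc hβ.not_periodic hα {P} hinf'
  obtain ⟨k, hk⟩ := hβ.window hP B
  obtain ⟨j, hj, hj'⟩ := hB k
  exact hk j hj (hj' P rfl)

/-- **main theorem** over `ℂ` -/
theorem full_CC {Φ : Fin N → MvPolynomial (Fin N) ℂ} (hCC : DMX.CC Φ) (α : Fin N → ℂ) :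
    ∃ L : ℕ, 0 < L ∧ ∀ V : Set (MvPolynomial (Fin N) ℂ), ∃ E A : Finset ℕ,
      {n | ∀ G ∈ V, eval ((pmap Φ)^[n] α) G = 0} =
        {n : ℕ | n ∈ E ∨ ∃ a ∈ A, ∃ k : ℕ, n = a + L * k} := by
  by_cases hα : DMC.Dense Φ α
  · by_cases hu : IsUnit (jac Φ)
    · obtain ⟨A, hA⟩ := hu.exists_left_inv
      exact etale Φ α A fun n => by rw [← map_mul, hA, map_one]
    · obtain ⟨h, hirr, hdvd⟩ := WfDvdMonoid.exists_irreducible_factor hu hCC.1
      obtain ⟨m, β, hm, hc, hβ⟩ := hCC.2 h hirr hdvd
      have hh : ∀ c, h ≠ C c := by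
        rintro c rfl
        by_cases hc0 : c = 0
        · exact hirr.ne_zero (by rw [hc0, map_zero])
        · exact hirr.not_isUnit ((IsUnit.mk0 _ hc0).map C)
      exact ⟨1, one_pos, dense_case (RingHom.id ℂ) fun P hP =>
        finite_of_dense_complex hh hm hc hβ hα hP⟩
  · exact nondense_case (RingHom.id ℂ) (crit_of_contr hCC.1 fun h h1 h2 => by
      obtain ⟨m, β, _, hc, hβ⟩ := hCC.2 h h1 h2
      exact ⟨m, β, hc, hβ⟩) hα

end Pool.Agent.Helper26.DMU
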